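import Mathlib

set_option autoImplicit false

namespace Q236.TotientWindow

open Finset

/-- the sum of `1/p` over the prime divisors `p > y` of `n` -/
noncomputable def R (y n : ℕ) : ℝ := ∑ p ∈ n.primeFactors.filter (fun p => y < p), (1 : ℝ) / p

/-- the truncated totient ratio: product of `1 - 1/p` over primes `p ≤ y` dividing `n` -/
noncomputable def t (y n : ℕ) : ℝ :=
  ∏ p ∈ (range (y + 1)).filter Nat.Prime, if p ∣ n then (1 - (1 : ℝ) / p) else 1

lemma factor_nonneg {p : ℕ} (hp : p.Prime) : (0 : ℝ) ≤ 1 - 1 / p := by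
  have h1 : (1 : ℝ) ≤ p := by exact_mod_cast hp.one_lt.le
  have : (1 : ℝ) / p ≤ 1 := by
    rw [div_le_one (by linarith)]; exact h1
  linarith

lemma factor_le_one (p : ℕ) : 1 - (1 : ℝ) / p ≤ 1 := by
  have : (0 : ℝ) ≤ 1 / p := by positivity
  linarith

lemma prod_one_sub_ge (s : Finset ℕ) (a : ℕ → ℝ) (h0 : ∀ i ∈ s, 0 ≤ a i) (h1 : ∀ i ∈ s, a i ≤ 1) :
    1 - ∑ i ∈ s, a i ≤ ∏ i ∈ s, (1 - a i) := by
  classical
  induction s using Finset.induction_on with
  | empty => simp
  | insert i s hi ih =>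
    rw [sum_insert hi, prod_insert hi]
    have hi0 := h0 i (mem_insert_self _ _)
    have hi1 := h1 i (mem_insert_self _ _)
    have ih' := ih (fun j hj => h0 j (mem_insert_of_mem hj)) (fun j hj => h1 j (mem_insert_of_mem hj))
    have hP1 : ∏ j ∈ s, (1 - a j) ≤ 1 :=
      prod_le_one (fun j hj => by linarith [h1 j (mem_insert_of_mem hj)])
        (fun j hj => by linarith [h0 j (mem_insert_of_mem hj)])
    nlinarith

lemma t_nonneg (y n : ℕ) : 0 ≤ t y n := by
  unfold t
  apply prod_nonneg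
  intro p hp
  rw [mem_filter] at hp
  split_ifs
  · exact factor_nonneg hp.2
  · norm_num

lemma t_le_one (y n : ℕ) : t y n ≤ 1 := by
  unfold t
  apply prod_le_one
  · intro p hp
    rw [mem_filter] at hp
    split_ifs
    · exact factor_nonneg hp.2
    · norm_num
  · intro p hp
    split_ifs
    · exact factor_le_one p
    · norm_num

lemma R_nonneg (y n : ℕ) : 0 ≤ R y n := by
  unfold R
  apply sum_nonneg
  intro p _
  positivity

lemma totient_real (n : ℕ) :
    (n.totient : ℝ) = n * ∏ p ∈ n.primeFactors, (1 - (1 : ℝ) / p) := by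
  have h := Nat.totient_eq_mul_prod_factors n
  have h2 : ((n.totient : ℚ) : ℝ) = ((n * ∏ p ∈ n.primeFactors, (1 - (p : ℚ)⁻¹) : ℚ) : ℝ) := by
    exact_mod_cast congrArg (fun q : ℚ => (q : ℝ)) h
  push_cast at h2
  simpa [one_div] using h2

lemma t_eq (y n : ℕ) (hn : n ≠ 0) :
    t y n = ∏ p ∈ n.primeFactors.filter (fun p => p ≤ y), (1 - (1 : ℝ) / p) := by
  unfold t
  rw [← prod_filter]
  congr 1
  ext p
  simp only [mem_filter, mem_range, Nat.mem_primeFactors]
  constructor
  · rintro ⟨⟨h1, h2⟩, h3⟩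
    exact ⟨⟨h2, h3, hn⟩, by omega⟩
  · rintro ⟨⟨h2, h3, _⟩, h1⟩
    exact ⟨⟨by omega, h2⟩, h3⟩

lemma totient_split (y n : ℕ) (hn : n ≠ 0) :
    (n.totient : ℝ) = n * (t y n * ∏ p ∈ n.primeFactors.filter (fun p => y < p), (1 - (1 : ℝ) / p)) := by
  rw [totient_real, t_eq y n hn]
  congr 1
  rw [← prod_filter_mul_prod_filter_not n.primeFactors (fun p => p ≤ y)]
  congr 1
  apply prod_congr _ (fun _ _ => rfl)
  ext p
  simp

lemma totient_le_t (y n : ℕ) (hn : n ≠ 0) : (n.totient : ℝ) ≤ n * t y n := by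
  rw [totient_split y n hn]
  have h : ∏ p ∈ n.primeFactors.filter (fun p => y < p), (1 - (1 : ℝ) / p) ≤ 1 := by
    apply prod_le_one
    · intro p hp
      rw [mem_filter] at hp
      exact factor_nonneg (Nat.prime_of_mem_primeFactors hp.1)
    · intro p _
      exact factor_le_one p
  have h2 : t y n * ∏ p ∈ n.primeFactors.filter (fun p => y < p), (1 - (1 : ℝ) / p) ≤ t y n := by
    have := mul_le_mul_of_nonneg_left h (t_nonneg y n)
    simpa using this
  exact mul_le_mul_of_nonneg_left h2 (Nat.cast_nonneg n)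

lemma t_le_totient (y n : ℕ) (hn : n ≠ 0) : n * t y n ≤ (n.totient : ℝ) + n * R y n := by
  rw [totient_split y n hn]
  have h : 1 - R y n ≤ ∏ p ∈ n.primeFactors.filter (fun p => y < p), (1 - (1 : ℝ) / p) := by
    unfold R
    apply prod_one_sub_ge
    · intro p _; positivity
    · intro p hp
      rw [mem_filter] at hp
      have := factor_nonneg (Nat.prime_of_mem_primeFactors hp.1)
      linarith
  have h2 : t y n * (1 - R y n) ≤ t y n * ∏ p ∈ n.primeFactors.filter (fun p => y < p), (1 - (1 : ℝ) / p) :=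
    mul_le_mul_of_nonneg_left h (t_nonneg y n)
  have h3 : t y n * R y n ≤ R y n := by
    have := mul_le_mul_of_nonneg_right (t_le_one y n) (R_nonneg y n)
    simpa using this
  have h4 : t y n ≤ t y n * (∏ p ∈ n.primeFactors.filter (fun p => y < p), (1 - (1 : ℝ) / p)) + R y n := by
    nlinarith
  have hn0 : (0 : ℝ) ≤ n := Nat.cast_nonneg n
  nlinarith

/-- periodicity of the truncated ratio -/
lemma t_mod (y n : ℕ) : t y (n % primorial y) = t y n := by
  unfold t
  apply prod_congr rfl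
  intro p hp
  have hdvd : p ∣ primorial y := by
    unfold primorial
    exact dvd_prod_of_mem (fun p => p) hp
  have : (p ∣ n % primorial y) ↔ p ∣ n := by
    exact (Nat.dvd_mod_iff hdvd)
  simp [this]

/-- average of R -/
lemma sum_R_le (y M : ℕ) (hy : y ≠ 0) : ∑ n ∈ Icc 1 M, R y n ≤ M / y := by
  unfold R
  have h1 : ∑ n ∈ Icc 1 M, ∑ p ∈ n.primeFactors.filter (fun p => y < p), (1 : ℝ) / p
      ≤ ∑ n ∈ Icc 1 M, ∑ p ∈ Ioc y (max y M), if p ∣ n then (1 : ℝ) / p else 0 := by
    apply sum_le_sum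
    intro n hn
    rw [← sum_filter]
    apply sum_le_sum_of_subset_of_nonneg
    · intro p hp
      simp only [mem_filter, Nat.mem_primeFactors, mem_Ioc] at hp ⊢
      rw [mem_Icc] at hn
      have := Nat.le_of_dvd (by omega) hp.1.2.1
      exact ⟨⟨hp.2, le_trans (by omega) (le_max_right y M)⟩, hp.1.2.1⟩
    · intro p _ _; positivity
  refine h1.trans ?_
  rw [sum_comm]
  have h2 : ∀ p ∈ Ioc y (max y M), (∑ n ∈ Icc 1 M, if p ∣ n then (1 : ℝ) / p else 0) ≤ M * ((p : ℝ) ^ 2)⁻¹ := by
    intro p hp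
    rw [mem_Ioc] at hp
    have hp0 : (0 : ℝ) < p := by exact_mod_cast (by omega : 0 < p)
    rw [← sum_filter, sum_const, nsmul_eq_mul]
    have hc : ((Icc 1 M).filter (fun n => p ∣ n)).card = M / p := by
      have := Nat.Ioc_filter_dvd_card_eq_div M p
      rw [← this]
      congr 1
    rw [hc]
    have h3 : ((M / p : ℕ) : ℝ) ≤ M / p := Nat.cast_div_le
    calc ((M / p : ℕ) : ℝ) * (1 / p) ≤ (M / p) * (1 / p) := by
          apply mul_le_mul_of_nonneg_right h3; positivity
      _ = M * ((p : ℝ) ^ 2)⁻¹ := by field_simp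
  refine (sum_le_sum h2).trans ?_
  rw [← mul_sum]
  have h3 : ∑ p ∈ Ioc y (max y M), ((p : ℝ) ^ 2)⁻¹ ≤ (y : ℝ)⁻¹ - ((max y M : ℕ) : ℝ)⁻¹ :=
    sum_Ioc_inv_sq_le_sub hy (le_max_left _ _)
  have h4 : (0 : ℝ) ≤ ((max y M : ℕ) : ℝ)⁻¹ := by positivity
  have hM : (0 : ℝ) ≤ M := Nat.cast_nonneg M
  calc (M : ℝ) * ∑ p ∈ Ioc y (max y M), ((p : ℝ) ^ 2)⁻¹ ≤ M * (y : ℝ)⁻¹ := by
        apply mul_le_mul_of_nonneg_left _ hM; linarith
    _ = M / y := by rw [div_eq_mul_inv]

/-- Chebyshev bound for R -/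
lemma card_R_gt (y M : ℕ) (hy : y ≠ 0) (c : ℝ) (hc : 0 < c) :
    (((Icc 1 M).filter (fun n => c < R y n)).card : ℝ) ≤ M / (y * c) := by
  have h1 : (((Icc 1 M).filter (fun n => c < R y n)).card : ℝ) * c ≤ ∑ n ∈ Icc 1 M, R y n := by
    rw [← nsmul_eq_mul, ← sum_const]
    calc ∑ _n ∈ (Icc 1 M).filter (fun n => c < R y n), c
        ≤ ∑ n ∈ (Icc 1 M).filter (fun n => c < R y n), R y n := by
          apply sum_le_sum
          intro n hn
          rw [mem_filter] at hn
          exact hn.2.le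
      _ ≤ ∑ n ∈ Icc 1 M, R y n := by
          apply sum_le_sum_of_subset_of_nonneg (filter_subset _ _)
          intro n _ _
          exact R_nonneg y n
  have h2 := sum_R_le y M hy
  have hy0 : (0 : ℝ) < y := by exact_mod_cast Nat.pos_of_ne_zero hy
  rw [le_div_iff₀ (by positivity)]
  have h3 := h1.trans h2
  rw [le_div_iff₀ hy0] at h3
  linarith

/-- counting a residue class in a real interval -/
lemma card_residue (P r : ℕ) (hP : 0 < P) (a L : ℝ) (hL : 0 ≤ L) (S : Finset ℕ)
    (hS : ∀ n ∈ S, n % P = r ∧ a < n ∧ (n : ℝ) < a + L) :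
    (S.card : ℝ) ≤ L / P + 1 := by
  classical
  by_cases hne : S.Nonempty
  · -- map n ↦ n / P is injective on S, image in Icc (min/P) (max/P)
    set m := S.min' hne
    set M := S.max' hne
    have hm := hS m (S.min'_mem hne)
    have hM := hS M (S.max'_mem hne)
    have hinj : Set.InjOn (fun n => n / P) (S : Set ℕ) := by
      intro n hn n' hn' h
      have h1 := hS n hn
      have h2 := hS n' hn'
      have e1 := Nat.div_add_mod n P
      have e2 := Nat.div_add_mod n' P
      simp only at h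
      rw [← e1, ← e2, h, h1.1, h2.1]
    have himg : S.image (fun n => n / P) ⊆ Icc (m / P) (M / P) := by
      intro q hq
      rw [mem_image] at hq
      obtain ⟨n, hn, rfl⟩ := hq
      rw [mem_Icc]
      exact ⟨Nat.div_le_div_right (S.min'_le n hn), Nat.div_le_div_right (S.le_max' n hn)⟩
    have hcard : S.card ≤ M / P + 1 - m / P := by
      calc S.card = (S.image (fun n => n / P)).card := (card_image_of_injOn hinj).symm
        _ ≤ (Icc (m / P) (M / P)).card := card_le_card himg
        _ = M / P + 1 - m / P := by simp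
    have hle : m / P ≤ M / P := Nat.div_le_div_right (S.min'_le M (S.max'_mem hne))
    have hmM : (M : ℝ) - m < L := by linarith [hm.2.1, hM.2.2]
    have e1 := Nat.div_add_mod m P
    have e2 := Nat.div_add_mod M P
    have hPr : (0 : ℝ) < P := by exact_mod_cast hP
    have e1' : (P : ℝ) * (m / P : ℕ) + r = m := by
      have := e1; rw [hm.1] at this; exact_mod_cast this
    have e2' : (P : ℝ) * (M / P : ℕ) + r = M := by
      have := e2; rw [hM.1] at this; exact_mod_cast this
    have hc' : (S.card : ℝ) ≤ (M / P : ℕ) + 1 - (m / P : ℕ) := by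
      have h5 : S.card + m / P ≤ M / P + 1 := by omega
      have h6 : ((S.card + m / P : ℕ) : ℝ) ≤ ((M / P + 1 : ℕ) : ℝ) := by exact_mod_cast h5
      push_cast at h6
      linarith
    have h7 : ((M / P : ℕ) : ℝ) - (m / P : ℕ) ≤ L / P := by
      rw [le_div_iff₀ hPr]
      nlinarith
    linarith
  · rw [not_nonempty_iff_eq_empty] at hne
    subst hne
    simp
    positivity

/-- The key window estimate. -/
theorem window (k : ℕ) (hk : 1 ≤ k) : ∃ X : ℕ, ∀ x : ℕ, X ≤ x →
    ((Set.ncard {n : ℕ | (x : ℝ) < (n : ℝ) + (Nat.totient n : ℝ) ∧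
      (n : ℝ) + (Nat.totient n : ℝ) < (x : ℝ) + x / k} : ℕ) : ℝ) ≤ 4 * (x / k) := by
  classical
  set y := 4 * k ^ 2 with hy
  set P := primorial y with hP
  have hPpos : 0 < P := primorial_pos y
  refine ⟨P * k + 1, fun x hx => ?_⟩
  have hk0 : (0 : ℝ) < k := by exact_mod_cast (by omega : 0 < k)
  have hk1 : (1 : ℝ) ≤ k := by exact_mod_cast hk
  have hx1 : 1 ≤ x := by omega
  have hx0 : (0 : ℝ) < x := by exact_mod_cast (by omega : 0 < x)
  have hxk : (x : ℝ) / k ≤ x := by
    rw [div_le_iff₀ hk0]; nlinarith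
  have hxk0 : (0 : ℝ) < x / k := by positivity
  set W : Set ℕ := {n : ℕ | (x : ℝ) < (n : ℝ) + (Nat.totient n : ℝ) ∧
      (n : ℝ) + (Nat.totient n : ℝ) < (x : ℝ) + x / k} with hW
  -- W is inside Icc 1 (2x)
  have hWsub : ∀ n ∈ W, n ∈ Icc 1 (2 * x) := by
    intro n hn
    obtain ⟨h1, h2⟩ := hn
    rw [mem_Icc]
    constructor
    · by_contra h
      have : n = 0 := by omega
      subst this
      simp at h1
      linarith
    · have h3 : (0 : ℝ) ≤ (Nat.totient n : ℝ) := Nat.cast_nonneg _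
      have h4 : (n : ℝ) < 2 * x := by linarith
      have h5 : (n : ℝ) < ((2 * x : ℕ) : ℝ) := by push_cast; exact h4
      exact le_of_lt (by exact_mod_cast h5)
  -- finset version
  set F : Finset ℕ := (Icc 1 (2 * x)).filter (fun n => n ∈ W) with hF
  have hFW : (F : Set ℕ) = W := by
    ext n
    simp only [hF, coe_filter, Set.mem_ofPred_eq]
    exact ⟨fun h => h.2, fun h => ⟨hWsub n h, h⟩⟩
  rw [← hFW, Set.ncard_coe_finset]
  set c : ℝ := 1 / (2 * k) with hc
  have hc0 : 0 < c := by positivity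
  set B : Finset ℕ := (Icc 1 (2 * x)).filter (fun n => c < R y n) with hB
  set G : Finset ℕ := F.filter (fun n => R y n ≤ c) with hG
  have hFBG : F ⊆ B ∪ G := by
    intro n hn
    rw [mem_union]
    by_cases h : c < R y n
    · left
      rw [hB, mem_filter]
      exact ⟨(mem_filter.mp hn).1, h⟩
    · right
      rw [hG, mem_filter]
      exact ⟨hn, not_lt.mp h⟩
  have hBcard : (B.card : ℝ) ≤ x / k := by
    have h1 := card_R_gt y (2 * x) (by positivity) c hc0
    refine h1.trans (le_of_eq ?_)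
    rw [hc, hy]
    push_cast
    field_simp
    ring
  -- good part
  have hGcard : (G.card : ℝ) ≤ 2 * (x / k) + P := by
    have hmaps : ∀ n ∈ G, n % P ∈ range P := fun n _ => mem_range.mpr (Nat.mod_lt _ hPpos)
    rw [card_eq_sum_card_fiberwise hmaps]
    push_cast
    have hfib : ∀ r ∈ range P, ((G.filter (fun n => n % P = r)).card : ℝ) ≤ (2 * (x / k)) / P + 1 := by
      intro r hr
      set τ := t y r with hτ
      have hτ0 : 0 ≤ τ := t_nonneg y r
      have hτ1 : (1 : ℝ) ≤ 1 + τ := by linarith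
      have key : ∀ n ∈ G.filter (fun n => n % P = r), n % P = r ∧ (x : ℝ) / (1 + τ) < n ∧
          (n : ℝ) < x / (1 + τ) + 2 * (x / k) / (1 + τ) := by
        intro n hn
        rw [mem_filter, hG, mem_filter, hF, mem_filter, mem_Icc] at hn
        obtain ⟨⟨⟨⟨hn1, hn2⟩, hnW⟩, hR⟩, hmod⟩ := hn
        obtain ⟨hw1, hw2⟩ := hnW
        have ht : t y n = τ := by
          rw [hτ, ← hmod, hP, t_mod]
        have hn0 : n ≠ 0 := by omega
        have h1 := totient_le_t y n hn0
        have h2 := t_le_totient y n hn0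
        rw [ht] at h1 h2
        have hnr : (n : ℝ) ≤ 2 * x := by exact_mod_cast hn2
        have hnR : (n : ℝ) * R y n ≤ x / k := by
          calc (n : ℝ) * R y n ≤ (2 * x) * c := by
                apply mul_le_mul hnr hR (R_nonneg y n) (by positivity)
            _ = x / k := by rw [hc]; field_simp
        refine ⟨hmod, ?_, ?_⟩
        · rw [div_lt_iff₀ (by linarith)]
          nlinarith
        · rw [← add_div, lt_div_iff₀ (by linarith)]
          nlinarith
      have := card_residue P r hPpos (x / (1 + τ)) (2 * (x / k) / (1 + τ)) (by positivity) _ key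
      refine this.trans ?_
      have hPr : (0 : ℝ) < P := by exact_mod_cast hPpos
      have : 2 * (x / k) / (1 + τ) ≤ 2 * ((x : ℝ) / k) := by
        apply div_le_self (by positivity) hτ1
      have h3 : 2 * (x / k) / (1 + τ) / P ≤ 2 * ((x : ℝ) / k) / P :=
        div_le_div_of_nonneg_right this hPr.le
      linarith
    refine (sum_le_sum hfib).trans ?_
    rw [sum_const, card_range, nsmul_eq_mul]
    have hPr : (0 : ℝ) < P := by exact_mod_cast hPpos
    apply le_of_eq
    field_simp
  have hPx : (P : ℝ) ≤ x / k := by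
    rw [le_div_iff₀ hk0]
    have : P * k ≤ x := by omega
    exact_mod_cast this
  have h5 : (F.card : ℝ) ≤ B.card + G.card := by
    have := (card_le_card hFBG).trans (card_union_le B G)
    exact_mod_cast this
  linarith

/-- `n / φ(n) ≤ exp (2 R 1 n)` -/
lemma ratio_le_exp (n : ℕ) (_hn : n ≠ 0) : (n : ℝ) ≤ (n.totient : ℝ) * Real.exp (2 * R 1 n) := by
  rw [totient_real n]
  have hfil : n.primeFactors.filter (fun p => 1 < p) = n.primeFactors := by
    apply filter_true_of_mem
    intro p hp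
    exact (Nat.prime_of_mem_primeFactors hp).one_lt
  have hR : R 1 n = ∑ p ∈ n.primeFactors, (1 : ℝ) / p := by
    unfold R
    rw [hfil]
  rw [hR, mul_sum, Real.exp_sum, mul_assoc, ← prod_mul_distrib]
  have h1 : (1 : ℝ) ≤ ∏ p ∈ n.primeFactors, (1 - (1 : ℝ) / p) * Real.exp (2 * (1 / p)) := by
    apply Finset.one_le_prod
    intro p hp
    have hpp := Nat.prime_of_mem_primeFactors hp
    have hp2 : (2 : ℝ) ≤ p := by exact_mod_cast hpp.two_le
    set u : ℝ := 1 / p with hu
    have hu0 : 0 < u := by positivity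
    have hu1 : u ≤ 1 / 2 := by
      rw [hu]
      apply one_div_le_one_div_of_le (by norm_num) hp2
    have hexp : 1 + 2 * u ≤ Real.exp (2 * u) := by
      have := Real.add_one_le_exp (2 * u)
      linarith
    have h3 : (1 : ℝ) ≤ (1 - u) * (1 + 2 * u) := by nlinarith
    exact h3.trans (mul_le_mul_of_nonneg_left hexp (by linarith))
  have hn0 : (0 : ℝ) ≤ n := Nat.cast_nonneg n
  nlinarith

end Q236.TotientWindow
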