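import Mathlib

/-!
A Runge type lemma: if `P = ∏ (y + 4 a_i)` with distinct positive integers `a_i`, `y = W ^ 2` and `P` is a
square, then `W` is bounded by `(32 T) ^ k`.
-/

set_option autoImplicit false

namespace Q236.TriMu

open Finset

/-- the Catalan series over `ℤ`, with `X` replaced by `-a X` -/
noncomputable def Ca (a : ℤ) : PowerSeries ℤ :=
  PowerSeries.rescale (-a) (PowerSeries.map (Nat.castRingHom ℤ) PowerSeries.catalanSeries)

lemma Ca_eq (a : ℤ) : Ca a + PowerSeries.C a * PowerSeries.X * Ca a ^ 2 = 1 := by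
  have h := congrArg (fun p => PowerSeries.rescale (-a) (PowerSeries.map (Nat.castRingHom ℤ) p))
    PowerSeries.catalanSeries_sq_mul_X_add_one
  simp only [map_add, map_mul, map_pow, map_one, PowerSeries.map_X, PowerSeries.rescale_X,
    map_neg] at h
  change Ca a ^ 2 * (-PowerSeries.C a * PowerSeries.X) + 1 = Ca a at h
  linear_combination -h

/-- the square root of `1 + 4 a X` -/
noncomputable def Ga (a : ℤ) : PowerSeries ℤ :=
  1 + PowerSeries.C (2 * a) * PowerSeries.X * Ca a

lemma Ga_sq (a : ℤ) : Ga a ^ 2 = 1 + PowerSeries.C (4 * a) * PowerSeries.X := by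
  have h := Ca_eq a
  unfold Ga
  have e1 : (PowerSeries.C (2 * a) : PowerSeries ℤ) = 2 * PowerSeries.C a := by
    rw [map_mul]; rfl
  have e2 : (PowerSeries.C (4 * a) : PowerSeries ℤ) = 4 * PowerSeries.C a := by
    rw [map_mul]; rfl
  rw [e1, e2]
  linear_combination (4 * PowerSeries.C a * PowerSeries.X) * h

lemma catalan_le (n : ℕ) : catalan n ≤ 4 ^ n := by
  rw [catalan_eq_centralBinom_div]
  refine le_trans (Nat.div_le_self _ _) ?_
  rw [Nat.centralBinom]
  refine le_trans (Nat.choose_le_two_pow _ _) ?_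
  rw [pow_mul]
  norm_num

lemma coeff_Ga_zero (a : ℤ) : PowerSeries.coeff 0 (Ga a) = 1 := by
  simp [Ga, PowerSeries.coeff_zero_eq_constantCoeff_apply]

lemma coeff_Ga_succ (a : ℤ) (j : ℕ) :
    PowerSeries.coeff (j + 1) (Ga a) = 2 * a * ((-a) ^ j * (catalan j : ℤ)) := by
  unfold Ga
  rw [map_add, mul_assoc, PowerSeries.coeff_C_mul, PowerSeries.coeff_succ_X_mul]
  unfold Ca
  rw [PowerSeries.coeff_rescale, PowerSeries.coeff_map, PowerSeries.catalanSeries_coeff]
  rw [PowerSeries.coeff_one, if_neg (Nat.succ_ne_zero j)]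
  simp

lemma abs_coeff_Ga_le (a : ℤ) (ha : 0 ≤ a) (j : ℕ) :
    |PowerSeries.coeff j (Ga a)| ≤ (4 * a) ^ j := by
  cases j with
  | zero => rw [coeff_Ga_zero]; simp
  | succ j =>
    rw [coeff_Ga_succ, abs_mul, abs_mul, abs_mul, abs_pow, abs_neg, abs_of_nonneg ha]
    have h1 : |(catalan j : ℤ)| ≤ 4 ^ j := by
      rw [abs_of_nonneg (by positivity)]
      exact_mod_cast catalan_le j
    have h2 : |(2 : ℤ)| = 2 := rfl
    rw [h2]
    calc 2 * a * (a ^ j * |(catalan j : ℤ)|) ≤ 2 * a * (a ^ j * 4 ^ j) := by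
          apply mul_le_mul_of_nonneg_left _ (by positivity)
          exact mul_le_mul_of_nonneg_left h1 (by positivity)
      _ ≤ (4 * a) ^ (j + 1) := by
          rw [mul_pow, pow_succ, pow_succ]
          have : 0 ≤ a * (a ^ j * 4 ^ j) := by positivity
          nlinarith

/-- the product of the square roots -/
noncomputable def GI (s : Finset ℕ) : PowerSeries ℤ := ∏ a ∈ s, Ga (a : ℤ)

/-- the polynomial `∏ (1 + 4 a X)` -/
noncomputable def PI (s : Finset ℕ) : Polynomial ℤ :=
  ∏ a ∈ s, (1 + Polynomial.C (4 * (a : ℤ)) * Polynomial.X)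

lemma GI_sq (s : Finset ℕ) : GI s ^ 2 = (PI s : PowerSeries ℤ) := by
  classical
  unfold GI PI
  induction s using Finset.induction_on with
  | empty => simp
  | insert a s ha ih =>
    rw [Finset.prod_insert ha, Finset.prod_insert ha, mul_pow, ih, Ga_sq, Polynomial.coe_mul,
      Polynomial.coe_add, Polynomial.coe_mul, Polynomial.coe_one, Polynomial.coe_C,
      Polynomial.coe_X]

lemma abs_coeff_GI_le (s : Finset ℕ) (T : ℕ) (hs : ∀ a ∈ s, a ≤ T) (hT : 1 ≤ T) (j : ℕ) :
    |PowerSeries.coeff j (GI s)| ≤ 2 ^ s.card * (8 * (T : ℤ)) ^ j := by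
  classical
  unfold GI
  induction s using Finset.induction_on generalizing j with
  | empty =>
    rw [Finset.prod_empty, PowerSeries.coeff_one]
    split_ifs with h
    · subst h; simp
    · simp only [abs_zero]; positivity
  | insert a s ha ih =>
    rw [Finset.prod_insert ha, PowerSeries.coeff_mul, Finset.card_insert_of_notMem ha]
    have ih' := fun i => ih (fun b hb => hs b (Finset.mem_insert_of_mem hb)) i
    have haT : (a : ℤ) ≤ T := by exact_mod_cast hs a (Finset.mem_insert_self a s)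
    have hT0 : (0 : ℤ) < T := by exact_mod_cast hT
    refine le_trans (Finset.abs_sum_le_sum_abs _ _) ?_
    have h1 : ∀ p ∈ antidiagonal j, |PowerSeries.coeff p.1 (Ga (a : ℤ)) *
        PowerSeries.coeff p.2 (∏ a ∈ s, Ga (a : ℤ))| ≤
        (4 * (T : ℤ)) ^ p.1 * (2 ^ s.card * (8 * (T : ℤ)) ^ p.2) := by
      intro p _
      rw [abs_mul]
      apply mul_le_mul _ (ih' p.2) (abs_nonneg _) (by positivity)
      refine le_trans (abs_coeff_Ga_le _ (by positivity) _) ?_
      apply pow_le_pow_left₀ (by positivity)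
      linarith
    refine le_trans (Finset.sum_le_sum h1) ?_
    rw [Finset.Nat.sum_antidiagonal_eq_sum_range_succ_mk]
    have h2 : ∀ i ∈ range j.succ, (4 * (T : ℤ)) ^ (i, j - i).1 *
        (2 ^ s.card * (8 * (T : ℤ)) ^ (i, j - i).2) =
        2 ^ s.card * (4 * (T : ℤ)) ^ j * 2 ^ (j - i) := by
      intro i hi
      have hi' : i ≤ j := Nat.lt_succ_iff.mp (Finset.mem_range.mp hi)
      simp only
      have e : (8 * (T : ℤ)) ^ (j - i) = 2 ^ (j - i) * (4 * (T : ℤ)) ^ (j - i) := by
        rw [← mul_pow]; ring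
      rw [e]
      have e2 : (4 * (T : ℤ)) ^ j = (4 * (T : ℤ)) ^ i * (4 * (T : ℤ)) ^ (j - i) := by
        rw [← pow_add]; congr 1; omega
      rw [e2]; ring
    rw [Finset.sum_congr rfl h2, ← Finset.mul_sum]
    have h3 : ∑ i ∈ range j.succ, (2 : ℤ) ^ (j - i) ≤ 2 ^ (j + 1) := by
      have h4 := Finset.sum_range_reflect (fun i => (2 : ℤ) ^ i) (j + 1)
      simp only [Nat.succ_eq_add_one]
      have h5 : ∑ i ∈ range (j + 1), (2 : ℤ) ^ (j - i) = ∑ i ∈ range (j + 1), (2 : ℤ) ^ i := by
        rw [← h4]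
        apply Finset.sum_congr rfl
        intro i _
        congr 1
      rw [h5]
      have h7 : (∑ i ∈ range (j + 1), (2 : ℤ) ^ i) * (2 - 1) = 2 ^ (j + 1) - 1 :=
        geom_sum_mul (2 : ℤ) (j + 1)
      linarith
    calc 2 ^ s.card * (4 * (T : ℤ)) ^ j * ∑ i ∈ range j.succ, (2 : ℤ) ^ (j - i)
        ≤ 2 ^ s.card * (4 * (T : ℤ)) ^ j * 2 ^ (j + 1) :=
          mul_le_mul_of_nonneg_left h3 (by positivity)
      _ = 2 ^ (s.card + 1) * (8 * (T : ℤ)) ^ j := by
          have e : (8 * (T : ℤ)) ^ j = 2 ^ j * (4 * (T : ℤ)) ^ j := by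
            rw [← mul_pow]; ring
          rw [e]; ring


/-- truncation of the square root -/
noncomputable def GT (s : Finset ℕ) : Polynomial ℤ := PowerSeries.trunc (s.card + 1) (GI s)

/-- the error polynomial -/
noncomputable def EE (s : Finset ℕ) : Polynomial ℤ := GT s ^ 2 - PI s

lemma natDegree_PI_le (s : Finset ℕ) : (PI s).natDegree ≤ s.card := by
  classical
  unfold PI
  refine le_trans (Polynomial.natDegree_prod_le _ _) ?_
  refine le_trans (Finset.sum_le_card_nsmul _ _ 1 ?_) (by simp)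
  intro a _
  refine le_trans (Polynomial.natDegree_add_le _ _) ?_
  rw [Polynomial.natDegree_one]
  exact max_le (by omega) (le_trans (Polynomial.natDegree_C_mul_le _ _) Polynomial.natDegree_X_le)

lemma natDegree_GT_le (s : Finset ℕ) : (GT s).natDegree ≤ s.card := by
  have := PowerSeries.natDegree_trunc_lt (GI s) s.card
  unfold GT
  omega

lemma coeff_GT (s : Finset ℕ) (j : ℕ) :
    (GT s).coeff j = if j ≤ s.card then PowerSeries.coeff j (GI s) else 0 := by
  unfold GT
  rw [PowerSeries.coeff_trunc]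
  simp only [Nat.lt_succ_iff]

lemma coeff_EE_low (s : Finset ℕ) (j : ℕ) (hj : j ≤ s.card) : (EE s).coeff j = 0 := by
  unfold EE
  rw [Polynomial.coeff_sub, sub_eq_zero]
  have h1 := congrArg (PowerSeries.coeff j) (GI_sq s)
  rw [Polynomial.coeff_coe, pow_two, PowerSeries.coeff_mul] at h1
  rw [← h1, pow_two, Polynomial.coeff_mul]
  apply Finset.sum_congr rfl
  intro p hp
  have hp' : p.1 + p.2 = j := Finset.HasAntidiagonal.mem_antidiagonal.mp hp
  rw [coeff_GT, coeff_GT, if_pos (by omega), if_pos (by omega)]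

lemma abs_coeff_GT_le (s : Finset ℕ) (T : ℕ) (hs : ∀ a ∈ s, a ≤ T) (hT : 1 ≤ T) (j : ℕ) :
    |(GT s).coeff j| ≤ 2 ^ s.card * (8 * (T : ℤ)) ^ j := by
  rw [coeff_GT]
  split_ifs
  · exact abs_coeff_GI_le s T hs hT j
  · simp only [abs_zero]; positivity

lemma abs_coeff_EE_le (s : Finset ℕ) (T : ℕ) (hs : ∀ a ∈ s, a ≤ T) (hT : 1 ≤ T) (j : ℕ)
    (hj : s.card < j) (hj2 : j ≤ 2 * s.card) :
    |(EE s).coeff j| ≤ (2 * s.card + 1) * (4 ^ s.card * (8 * (T : ℤ)) ^ (2 * s.card)) := by
  have h0 : (EE s).coeff j = ∑ p ∈ antidiagonal j, (GT s).coeff p.1 * (GT s).coeff p.2 := by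
    unfold EE
    rw [Polynomial.coeff_sub, pow_two, Polynomial.coeff_mul,
      Polynomial.coeff_eq_zero_of_natDegree_lt (lt_of_le_of_lt (natDegree_PI_le s) hj), sub_zero]
  rw [h0]
  have hT1 : (1 : ℤ) ≤ T := by exact_mod_cast hT
  refine le_trans (Finset.abs_sum_le_sum_abs _ _) ?_
  have h1 : ∀ p ∈ antidiagonal j, |(GT s).coeff p.1 * (GT s).coeff p.2| ≤
      4 ^ s.card * (8 * (T : ℤ)) ^ (2 * s.card) := by
    intro p hp
    have hp' : p.1 + p.2 = j := Finset.HasAntidiagonal.mem_antidiagonal.mp hp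
    rw [abs_mul]
    calc |(GT s).coeff p.1| * |(GT s).coeff p.2|
        ≤ (2 ^ s.card * (8 * (T : ℤ)) ^ p.1) * (2 ^ s.card * (8 * (T : ℤ)) ^ p.2) :=
          mul_le_mul (abs_coeff_GT_le s T hs hT _) (abs_coeff_GT_le s T hs hT _) (abs_nonneg _)
            (by positivity)
      _ = 4 ^ s.card * (8 * (T : ℤ)) ^ j := by
          have e1 : (4 : ℤ) ^ s.card = 2 ^ s.card * 2 ^ s.card := by
            rw [← mul_pow]; norm_num
          rw [e1, ← hp', pow_add]; ring
      _ ≤ 4 ^ s.card * (8 * (T : ℤ)) ^ (2 * s.card) := by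
          apply mul_le_mul_of_nonneg_left _ (by positivity)
          exact pow_le_pow_right₀ (by linarith) hj2
  refine le_trans (Finset.sum_le_card_nsmul _ _ _ h1) ?_
  rw [Finset.Nat.card_antidiagonal, nsmul_eq_mul]
  apply mul_le_mul_of_nonneg_right _ (by positivity)
  push_cast
  have : (j : ℤ) ≤ 2 * s.card := by exact_mod_cast hj2
  linarith

lemma natDegree_EE_le (s : Finset ℕ) : (EE s).natDegree ≤ 2 * s.card := by
  unfold EE
  refine le_trans (Polynomial.natDegree_sub_le _ _) (max_le ?_ ?_)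
  · refine le_trans Polynomial.natDegree_pow_le ?_
    have := natDegree_GT_le s
    omega
  · have := natDegree_PI_le s
    omega

/-- `P` is not the square of a polynomial -/
lemma EE_ne_zero (s : Finset ℕ) (hs : ∀ a ∈ s, 1 ≤ a) (hne : s.Nonempty) : EE s ≠ 0 := by
  classical
  intro h
  have h1 : GT s ^ 2 = PI s := sub_eq_zero.mp h
  obtain ⟨a, ha⟩ := hne
  have ha1 : (1 : ℚ) ≤ a := by exact_mod_cast hs a ha
  set φ := Int.castRingHom ℚ with hφ
  have h2 : (GT s).map φ ^ 2 = (PI s).map φ := by rw [← h1, Polynomial.map_pow]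
  set x : ℚ := -1 / (4 * a) with hx
  have ha0 : (4 * (a : ℚ)) ≠ 0 := by positivity
  have hP : (PI s).map φ = (1 + Polynomial.C (4 * (a : ℚ)) * Polynomial.X) *
      ∏ b ∈ s.erase a, (1 + Polynomial.C (4 * (b : ℚ)) * Polynomial.X) := by
    unfold PI
    rw [Polynomial.map_prod, ← Finset.mul_prod_erase s _ ha]
    have e : ∀ b : ℕ, Polynomial.map φ (1 + Polynomial.C (4 * (b : ℤ)) * Polynomial.X)
        = 1 + Polynomial.C (4 * (b : ℚ)) * Polynomial.X := by
      intro b
      rw [Polynomial.map_add, Polynomial.map_mul, Polynomial.map_one, Polynomial.map_C,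
        Polynomial.map_X, map_mul]
      simp [hφ]
    rw [e]
    congr 1
    exact Finset.prod_congr rfl (fun b _ => e b)
  have hroot : ((PI s).map φ).eval x = 0 := by
    rw [hP, Polynomial.eval_mul]
    have : (1 + Polynomial.C (4 * (a : ℚ)) * Polynomial.X).eval x = 0 := by
      simp only [Polynomial.eval_add, Polynomial.eval_one, Polynomial.eval_mul,
        Polynomial.eval_C, Polynomial.eval_X, hx]
      field_simp
      ring
    rw [this, zero_mul]
  have hG : ((GT s).map φ).eval x = 0 := by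
    have h3 := congrArg (Polynomial.eval x) h2
    rw [hroot, Polynomial.eval_pow] at h3
    exact pow_eq_zero_iff (two_ne_zero) |>.mp h3
  have hd : (Polynomial.derivative ((PI s).map φ)).eval x = 0 := by
    rw [← h2, Polynomial.derivative_pow]
    simp [hG]
  rw [hP, Polynomial.derivative_mul, Polynomial.eval_add, Polynomial.eval_mul,
    Polynomial.eval_mul] at hd
  have e1 : (1 + Polynomial.C (4 * (a : ℚ)) * Polynomial.X).eval x = 0 := by
    simp only [Polynomial.eval_add, Polynomial.eval_one, Polynomial.eval_mul,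
      Polynomial.eval_C, Polynomial.eval_X, hx]
    field_simp
    ring
  rw [e1, zero_mul, add_zero] at hd
  have e2 : (Polynomial.derivative (1 + Polynomial.C (4 * (a : ℚ)) * Polynomial.X)).eval x
      = 4 * a := by
    simp
  rw [e2] at hd
  have h4 := (mul_eq_zero.mp hd).resolve_left ha0
  rw [Polynomial.eval_prod, Finset.prod_eq_zero_iff] at h4
  obtain ⟨b, hb, hb0⟩ := h4
  have hba : b ≠ a := Finset.ne_of_mem_erase hb
  simp only [Polynomial.eval_add, Polynomial.eval_one, Polynomial.eval_mul,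
    Polynomial.eval_C, Polynomial.eval_X, hx] at hb0
  apply hba
  have : (b : ℚ) = a := by
    field_simp at hb0
    linarith
  exact_mod_cast this

lemma eval_reflect (m : ℕ) (F : Polynomial ℤ) (y : ℤ) (hF : F.natDegree ≤ m) :
    (Polynomial.reflect m F).eval y = ∑ j ∈ range (m + 1), F.coeff j * y ^ (m - j) := by
  have h1 : (Polynomial.reflect m F).natDegree < m + 1 := by
    rw [Nat.lt_succ_iff, Polynomial.natDegree_le_iff_coeff_eq_zero]
    intro i hi
    rw [Polynomial.coeff_reflect, Polynomial.revAt_eq_self_of_lt hi]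
    exact Polynomial.coeff_eq_zero_of_natDegree_lt (lt_of_le_of_lt hF hi)
  rw [Polynomial.eval_eq_sum_range' h1, ← Finset.sum_range_reflect]
  apply Finset.sum_congr rfl
  intro i hi
  have hi' : i ≤ m := Nat.lt_succ_iff.mp (Finset.mem_range.mp hi)
  have e : m + 1 - 1 - i = m - i := by omega
  rw [e, Polynomial.coeff_reflect, Polynomial.revAt_le (by omega)]
  congr 2
  omega

lemma reflect_PI (s : Finset ℕ) :
    Polynomial.reflect s.card (PI s) = ∏ a ∈ s, (Polynomial.X + Polynomial.C (4 * (a : ℤ))) := by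
  classical
  unfold PI
  induction s using Finset.induction_on with
  | empty => simp
  | insert a s ha ih =>
    have hd1 : (1 + Polynomial.C (4 * (a : ℤ)) * Polynomial.X).natDegree ≤ 1 := by
      refine le_trans (Polynomial.natDegree_add_le _ _) ?_
      rw [Polynomial.natDegree_one]
      exact max_le (by omega) (le_trans (Polynomial.natDegree_C_mul_le _ _) Polynomial.natDegree_X_le)
    have hd2 : (∏ x ∈ s, (1 + Polynomial.C (4 * (x : ℤ)) * Polynomial.X)).natDegree ≤ s.card :=
      natDegree_PI_le s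
    rw [Finset.prod_insert ha, Finset.prod_insert ha, Finset.card_insert_of_notMem ha,
      add_comm s.card 1, Polynomial.reflect_mul _ _ hd1 hd2, ih]
    · congr 1
      rw [Polynomial.reflect_add]
      have e1 : Polynomial.reflect 1 (1 : Polynomial ℤ) = Polynomial.X := by
        have := Polynomial.reflect_C (1 : ℤ) 1
        simpa using this
      have e2 : Polynomial.reflect 1 (Polynomial.C (4 * (a : ℤ)) * Polynomial.X)
          = Polynomial.C (4 * (a : ℤ)) := by
        have := Polynomial.reflect_C_mul_X_pow 1 1 (c := 4 * (a : ℤ))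
        rw [pow_one] at this
        rw [this, Polynomial.revAt_le le_rfl]
        simp
      rw [e1, e2]

/-- **Runge lemma.** -/
theorem runge (s : Finset ℕ) (T : ℕ) (hne : s.Nonempty) (hs1 : ∀ a ∈ s, 1 ≤ a)
    (hs : ∀ a ∈ s, a ≤ T) (W V : ℕ) (hV : ∏ a ∈ s, (W ^ 2 + 4 * a) = V ^ 2) :
    W ≤ (32 * T) ^ s.card := by
  classical
  by_contra hcon
  have hW : (32 * T) ^ s.card < W := not_le.mp hcon
  set k := s.card with hk
  have hk1 : 1 ≤ k := Finset.card_pos.mpr hne
  have hT : 1 ≤ T := by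
    obtain ⟨a, ha⟩ := hne
    exact le_trans (hs1 a ha) (hs a ha)
  set y : ℤ := (W : ℤ) ^ 2 with hy
  set h : ℤ := (32 * (T : ℤ)) ^ (2 * k) with hh
  have hhy : h < y := by
    rw [hh, hy, mul_comm 2 k, pow_mul]
    apply pow_lt_pow_left₀ _ (by positivity) two_ne_zero
    exact_mod_cast hW
  have hT1 : (1 : ℤ) ≤ T := by exact_mod_cast hT
  have hh0 : 0 < h := by positivity
  have hy0 : 0 < y := lt_trans hh0 hhy
  have hkk : ∀ m : ℕ, 1 ≤ m → m * (2 * m + 1) ≤ 4 ^ m := by
    intro m hm
    induction m, hm using Nat.le_induction with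
    | base => norm_num
    | succ m hm ih =>
      rw [pow_succ]
      nlinarith
  have hkk' : (k : ℤ) * (2 * k + 1) ≤ 4 ^ k := by exact_mod_cast hkk k hk1
  -- the coefficients of `E`
  have hcoef : ∀ j, k < j → j ≤ 2 * k → (k : ℤ) * |(EE s).coeff j| ≤ h := by
    intro j hj hj2
    have h1 := abs_coeff_EE_le s T hs hT j hj hj2
    rw [← hk] at h1
    have hp : 0 < (4 : ℤ) ^ k * (8 * (T : ℤ)) ^ (2 * k) := by positivity
    calc (k : ℤ) * |(EE s).coeff j|
        ≤ k * ((2 * k + 1) * (4 ^ k * (8 * (T : ℤ)) ^ (2 * k))) :=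
          mul_le_mul_of_nonneg_left h1 (by positivity)
      _ = (k * (2 * k + 1)) * (4 ^ k * (8 * (T : ℤ)) ^ (2 * k)) := by ring
      _ ≤ 4 ^ k * (4 ^ k * (8 * (T : ℤ)) ^ (2 * k)) := mul_le_mul_of_nonneg_right hkk' hp.le
      _ = h := by
          rw [hh, ← mul_assoc, ← pow_add, ← two_mul, ← mul_pow]
          congr 1
          ring
  have hkpos : (0 : ℤ) < k := by exact_mod_cast hk1
  have hsumE : ∑ j ∈ Ioc k (2 * k), |(EE s).coeff j| ≤ h := by
    have h1 : ∑ j ∈ Ioc k (2 * k), (k : ℤ) * |(EE s).coeff j| ≤ ∑ j ∈ Ioc k (2 * k), h := by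
      apply Finset.sum_le_sum
      intro j hj
      rw [Finset.mem_Ioc] at hj
      exact hcoef j hj.1 hj.2
    rw [← Finset.mul_sum, Finset.sum_const, Nat.card_Ioc, nsmul_eq_mul] at h1
    have e : ((2 * k - k : ℕ) : ℤ) = k := by
      congr 1
      omega
    rw [e] at h1
    exact le_of_mul_le_mul_left h1 hkpos
  -- evaluation
  set M : ℤ := (Polynomial.reflect (2 * k) (EE s)).eval y with hM
  set N : ℤ := (Polynomial.reflect k (GT s)).eval y with hN
  have hMsum : M = ∑ j ∈ range (2 * k + 1), (EE s).coeff j * y ^ (2 * k - j) :=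
    eval_reflect _ _ _ (natDegree_EE_le s)
  have hMsum2 : M = ∑ j ∈ Ioc k (2 * k), (EE s).coeff j * y ^ (2 * k - j) := by
    rw [hMsum]
    symm
    apply Finset.sum_subset
    · intro j hj
      rw [Finset.mem_Ioc] at hj
      rw [Finset.mem_range]
      omega
    · intro j hj hj2
      rw [Finset.mem_range] at hj
      rw [Finset.mem_Ioc] at hj2
      rw [coeff_EE_low s j (by omega), zero_mul]
  have hMN : M = N ^ 2 - ((W : ℤ) ^ k * V) ^ 2 := by
    rw [hM]
    unfold EE
    rw [two_mul, Polynomial.reflect_sub, Polynomial.eval_sub, pow_two (GT s),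
      Polynomial.reflect_mul _ _ (natDegree_GT_le s) (natDegree_GT_le s), Polynomial.eval_mul,
      ← hN, ← pow_two]
    congr 1
    have e1 : PI s = PI s * 1 := (mul_one _).symm
    rw [e1, Polynomial.reflect_mul _ _ (natDegree_PI_le s)
      (show (1 : Polynomial ℤ).natDegree ≤ k by simp), reflect_PI]
    have e2 : Polynomial.reflect k (1 : Polynomial ℤ) = Polynomial.X ^ k := by
      have := Polynomial.reflect_C (1 : ℤ) k
      simpa using this
    rw [e2, Polynomial.eval_mul, Polynomial.eval_prod, Polynomial.eval_pow, Polynomial.eval_X]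
    simp only [Polynomial.eval_add, Polynomial.eval_X, Polynomial.eval_C]
    have e3 : ∏ a ∈ s, (y + 4 * (a : ℤ)) = (V : ℤ) ^ 2 := by
      have := congrArg (fun m : ℕ => (m : ℤ)) hV
      push_cast at this
      rw [← this]
    rw [e3, hy]
    ring
  -- `M ≠ 0`
  have hM0 : M ≠ 0 := by
    have hEne := EE_ne_zero s hs1 hne
    have hex : ∃ j, (EE s).coeff j ≠ 0 := by
      by_contra hc
      apply hEne
      ext j
      by_contra hc2
      exact hc ⟨j, by simpa using hc2⟩
    set j0 := Nat.find hex with hj0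
    have hj0' : (EE s).coeff j0 ≠ 0 := Nat.find_spec hex
    have hj0k : k < j0 := by
      by_contra hc
      exact hj0' (coeff_EE_low s j0 (not_lt.mp hc))
    have hj02k : j0 ≤ 2 * k := by
      by_contra hc
      exact hj0' (Polynomial.coeff_eq_zero_of_natDegree_lt
        (lt_of_le_of_lt (natDegree_EE_le s) (not_le.mp hc)))
    have hsplit : M = (EE s).coeff j0 * y ^ (2 * k - j0) +
        ∑ j ∈ Ioc j0 (2 * k), (EE s).coeff j * y ^ (2 * k - j) := by
      rw [hMsum]
      have h1 : range (2 * k + 1) = Icc 0 (2 * k) := by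
        ext i; simp only [Finset.mem_range, Finset.mem_Icc]; omega
      have h2 : ∑ j ∈ Icc j0 (2 * k), (EE s).coeff j * y ^ (2 * k - j)
          = ∑ j ∈ Icc 0 (2 * k), (EE s).coeff j * y ^ (2 * k - j) := by
        apply Finset.sum_subset
        · intro i hi
          rw [Finset.mem_Icc] at hi ⊢
          omega
        · intro i hi hi2
          rw [Finset.mem_Icc] at hi hi2
          have : i < j0 := by omega
          have := Nat.find_min hex this
          rw [not_not.mp this, zero_mul]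
      rw [h1, ← h2]
      have h3 : Icc j0 (2 * k) = insert j0 (Ioc j0 (2 * k)) := by
        ext i; simp only [Finset.mem_Icc, Finset.mem_insert, Finset.mem_Ioc]; omega
      rw [h3, Finset.sum_insert (by simp)]
    intro h0
    rw [h0] at hsplit
    have h4 : |(EE s).coeff j0| * y ^ (2 * k - j0) =
        |∑ j ∈ Ioc j0 (2 * k), (EE s).coeff j * y ^ (2 * k - j)| := by
      have : (EE s).coeff j0 * y ^ (2 * k - j0) =
          -∑ j ∈ Ioc j0 (2 * k), (EE s).coeff j * y ^ (2 * k - j) := by linarith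
      rw [← abs_neg (∑ j ∈ Ioc j0 (2 * k), (EE s).coeff j * y ^ (2 * k - j)), ← this, abs_mul,
        abs_of_pos (pow_pos hy0 _)]
    have h5 : 1 ≤ |(EE s).coeff j0| := Int.one_le_abs hj0'
    have h6 : y * |∑ j ∈ Ioc j0 (2 * k), (EE s).coeff j * y ^ (2 * k - j)| ≤
        h * y ^ (2 * k - j0) := by
      calc y * |∑ j ∈ Ioc j0 (2 * k), (EE s).coeff j * y ^ (2 * k - j)|
          ≤ y * ∑ j ∈ Ioc j0 (2 * k), |(EE s).coeff j * y ^ (2 * k - j)| :=
            mul_le_mul_of_nonneg_left (Finset.abs_sum_le_sum_abs _ _) hy0.le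
        _ = ∑ j ∈ Ioc j0 (2 * k), |(EE s).coeff j| * y ^ (2 * k - j + 1) := by
            rw [Finset.mul_sum]
            apply Finset.sum_congr rfl
            intro j _
            rw [abs_mul, abs_of_pos (pow_pos hy0 _)]
            ring
        _ ≤ ∑ j ∈ Ioc j0 (2 * k), |(EE s).coeff j| * y ^ (2 * k - j0) := by
            apply Finset.sum_le_sum
            intro j hj
            rw [Finset.mem_Ioc] at hj
            apply mul_le_mul_of_nonneg_left _ (abs_nonneg _)
            exact pow_le_pow_right₀ (by linarith) (by omega)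
        _ = (∑ j ∈ Ioc j0 (2 * k), |(EE s).coeff j|) * y ^ (2 * k - j0) := by
            rw [Finset.sum_mul]
        _ ≤ (∑ j ∈ Ioc k (2 * k), |(EE s).coeff j|) * y ^ (2 * k - j0) := by
            apply mul_le_mul_of_nonneg_right _ (pow_pos hy0 _).le
            apply Finset.sum_le_sum_of_subset_of_nonneg
            · intro j hj
              rw [Finset.mem_Ioc] at hj ⊢
              omega
            · intro j _ _
              exact abs_nonneg _
        _ ≤ h * y ^ (2 * k - j0) := mul_le_mul_of_nonneg_right hsumE (pow_pos hy0 _).le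
    rw [← h4] at h6
    have h7 : 0 < y ^ (2 * k - j0) := pow_pos hy0 _
    have h8 : y * (1 * y ^ (2 * k - j0)) ≤ h * y ^ (2 * k - j0) :=
      le_trans (mul_le_mul_of_nonneg_left (mul_le_mul_of_nonneg_right h5 h7.le) hy0.le) h6
    nlinarith
  -- `|M| < y ^ k`
  have hMlt : |M| < y ^ k := by
    have h1 : y * |M| ≤ h * y ^ k := by
      rw [hMsum2]
      calc y * |∑ j ∈ Ioc k (2 * k), (EE s).coeff j * y ^ (2 * k - j)|
          ≤ y * ∑ j ∈ Ioc k (2 * k), |(EE s).coeff j * y ^ (2 * k - j)| :=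
            mul_le_mul_of_nonneg_left (Finset.abs_sum_le_sum_abs _ _) hy0.le
        _ = ∑ j ∈ Ioc k (2 * k), |(EE s).coeff j| * y ^ (2 * k - j + 1) := by
            rw [Finset.mul_sum]
            apply Finset.sum_congr rfl
            intro j _
            rw [abs_mul, abs_of_pos (pow_pos hy0 _)]
            ring
        _ ≤ ∑ j ∈ Ioc k (2 * k), |(EE s).coeff j| * y ^ k := by
            apply Finset.sum_le_sum
            intro j hj
            rw [Finset.mem_Ioc] at hj
            apply mul_le_mul_of_nonneg_left _ (abs_nonneg _)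
            exact pow_le_pow_right₀ (by linarith) (by omega)
        _ = (∑ j ∈ Ioc k (2 * k), |(EE s).coeff j|) * y ^ k := by
            rw [Finset.sum_mul]
        _ ≤ h * y ^ k := mul_le_mul_of_nonneg_right hsumE (pow_pos hy0 _).le
    have h2 : 0 < y ^ k := pow_pos hy0 _
    have h3 : y * |M| < y * y ^ k := lt_of_le_of_lt h1 (mul_lt_mul_of_pos_right hhy h2)
    exact lt_of_mul_lt_mul_left h3 hy0.le
  -- conclusion
  set B : ℤ := (W : ℤ) ^ k * V with hB
  have hVk : W ^ k ≤ V := by
    have h1 : (W ^ k) ^ 2 ≤ V ^ 2 := by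
      rw [← hV]
      calc (W ^ k) ^ 2 = ∏ _a ∈ s, W ^ 2 := by
            rw [Finset.prod_const, ← hk]; ring
        _ ≤ ∏ a ∈ s, (W ^ 2 + 4 * a) := Finset.prod_le_prod' (fun a _ => Nat.le_add_right _ _)
    exact (Nat.pow_le_pow_iff_left two_ne_zero).mp h1
  have hBy : y ^ k ≤ B := by
    rw [hB, hy]
    have h1 : ((W : ℤ) ^ k) ≤ V := by exact_mod_cast hVk
    calc ((W : ℤ) ^ 2) ^ k = (W : ℤ) ^ k * (W : ℤ) ^ k := by ring
      _ ≤ (W : ℤ) ^ k * V := mul_le_mul_of_nonneg_left h1 (by positivity)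
  have hB0 : 0 < B := lt_of_lt_of_le (pow_pos hy0 _) hBy
  have h1 : |N| ≠ B := by
    intro hc
    apply hM0
    rw [hMN, ← sq_abs N, hc]
    ring
  have h2 : M = (|N| - B) * (|N| + B) := by
    rw [hMN, ← sq_abs N]
    ring
  have h3 : 1 ≤ |(|N| - B)| := Int.one_le_abs (sub_ne_zero.mpr h1)
  have h4 : B ≤ |M| := by
    rw [h2, abs_mul, abs_of_nonneg (show 0 ≤ |N| + B by positivity)]
    have h5 : B ≤ |N| + B := by linarith [abs_nonneg N]
    nlinarith [abs_nonneg N]
  linarith

end Q236.TriMu
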