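import Mathlib
import Pool.Agent.Q236.TriRunge
import Pool.Agent.H353R2.Z2

/-!
# The Möbius function of the divisibility order on triangular numbers: growth bound

We prove that the Möbius function `μ_T` of the poset `i ≼ j ↔ i(i+1) ∣ j(j+1)` satisfies
`|μ_T(n)| ≤ A n ^ a` for every `a > 0`.
-/

namespace Q236.TriMu

open Finset

/-- proper predecessors of `n` in the order. -/
def P (n : ℕ) : Finset ℕ := (Finset.Ico 1 n).filter (fun d => d * (d + 1) ∣ n * (n + 1))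

lemma mem_P {n d : ℕ} : d ∈ P n ↔ (1 ≤ d ∧ d < n) ∧ d * (d + 1) ∣ n * (n + 1) := by
  unfold P
  rw [Finset.mem_filter, Finset.mem_Ico]

open Classical in
/-- The quotients `t ≤ T`. -/
noncomputable def TT (n T : ℕ) : Finset ℕ :=
  (Finset.Icc 2 T).filter (fun t => ∃ d, 1 ≤ d ∧ d * (d + 1) * t = n * (n + 1))

lemma mem_TT {n T t : ℕ} : t ∈ TT n T ↔ (2 ≤ t ∧ t ≤ T) ∧ ∃ d, 1 ≤ d ∧ d * (d + 1) * t = n * (n + 1) := by
  classical
  unfold TT
  rw [Finset.mem_filter, Finset.mem_Icc]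

lemma indep {n T : ℕ} (I : Finset ℕ) (hI : I ⊆ TT n T) (hne : I.Nonempty)
    (hsq : IsSquare (∏ t ∈ I, t)) : 4 * n + 2 ≤ (32 * T) ^ I.card := by
  classical
  have hex : ∀ t ∈ I, ∃ d, 1 ≤ d ∧ d * (d + 1) * t = n * (n + 1) := fun t ht =>
    (mem_TT.mp (hI ht)).2
  choose! e he1 he2 using hex
  have h2 : ∀ t ∈ I, 2 ≤ t := fun t ht => (mem_TT.mp (hI ht)).1.1
  have hT : ∀ t ∈ I, t ≤ T := fun t ht => (mem_TT.mp (hI ht)).1.2
  obtain ⟨q, hq⟩ := hsq
  have hinj : Set.InjOn (fun t => t - 1) (I : Set ℕ) := by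
    intro a ha b hb hab
    have := h2 a ha
    have := h2 b hb
    simp only at hab
    omega
  have hcard : (I.image (fun t => t - 1)).card = I.card := Finset.card_image_of_injOn hinj
  have := runge (I.image (fun t => t - 1)) T (hne.image _)
    (by
      intro a ha
      obtain ⟨t, ht, rfl⟩ := Finset.mem_image.mp ha
      have := h2 t ht
      omega)
    (by
      intro a ha
      obtain ⟨t, ht, rfl⟩ := Finset.mem_image.mp ha
      have := hT t ht
      omega)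
    (4 * n + 2) (2 ^ I.card * q * ∏ t ∈ I, (2 * e t + 1))
    (by
      rw [Finset.prod_image hinj]
      have h3 : ∀ t ∈ I, (4 * n + 2) ^ 2 + 4 * (t - 1) = 4 * t * (2 * e t + 1) ^ 2 := by
        intro t ht
        have h4 := he2 t ht
        have h5 := h2 t ht
        obtain ⟨u, rfl⟩ : ∃ u, t = u + 1 := ⟨t - 1, by omega⟩
        rw [Nat.add_sub_cancel]
        nlinarith
      rw [Finset.prod_congr rfl h3, Finset.prod_mul_distrib, Finset.prod_mul_distrib,
        Finset.prod_const, Finset.prod_pow, hq]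
      have : (4 : ℕ) ^ I.card = (2 ^ I.card) ^ 2 := by
        rw [← pow_mul, mul_comm, pow_mul]
        norm_num
      rw [this]
      ring)
  rwa [hcard] at this

lemma isSquare_of_even {m : ℕ} (hm : m ≠ 0) (h : ∀ p, Even (m.factorization p)) : IsSquare m := by
  refine ⟨∏ p ∈ m.primeFactors, p ^ (m.factorization p / 2), ?_⟩
  rw [← Finset.prod_mul_distrib]
  conv_lhs => rw [← Nat.prod_factorization_pow_eq_self hm]
  rw [Finsupp.prod, Nat.support_factorization]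
  apply Finset.prod_congr rfl
  intro p _
  obtain ⟨r, hr⟩ := h p
  rw [← pow_add]
  congr 1
  omega

/-- Pigeonhole. -/
lemma pigeon (E : Finset ℕ) (F : Finset (Finset ℕ)) (hpos : ∀ I ∈ F, ∀ t ∈ I, t ≠ 0)
    (hE : ∀ I ∈ F, ∀ t ∈ I, t.primeFactors ⊆ E) (hcard : 2 ^ E.card < F.card) :
    ∃ I ∈ F, ∃ J ∈ F, I ≠ J ∧ IsSquare (∏ t ∈ symmDiff I J, t) := by
  classical
  have h1 : E.powerset.card < F.card := by rwa [Finset.card_powerset]
  obtain ⟨I, hI, J, hJ, hne, heq⟩ := Finset.exists_ne_map_eq_of_card_lt_of_maps_to h1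
    (f := fun I => E.filter (fun p => Odd ((∏ t ∈ I, t).factorization p)))
    (fun I _ => by
      simp only [Finset.coe_powerset, Set.mem_preimage, Set.mem_powerset_iff]
      exact_mod_cast Finset.filter_subset _ _)
  refine ⟨I, hI, J, hJ, hne, ?_⟩
  have hI0 : ∏ t ∈ I, t ≠ 0 := Finset.prod_ne_zero_iff.mpr (hpos I hI)
  have hJ0 : ∏ t ∈ J, t ≠ 0 := Finset.prod_ne_zero_iff.mpr (hpos J hJ)
  have hout : ∀ I ∈ F, ∀ p, p ∉ E → (∏ t ∈ I, t).factorization p = 0 := by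
    intro I hI p hp
    rw [Nat.factorization_prod (hpos I hI), Finset.sum_apply']
    apply Finset.sum_eq_zero
    intro t ht
    apply Finsupp.notMem_support_iff.mp
    rw [Nat.support_factorization]
    exact fun h => hp (hE I hI t ht h)
  have hev : IsSquare ((∏ t ∈ I, t) * ∏ t ∈ J, t) := by
    apply isSquare_of_even (mul_ne_zero hI0 hJ0)
    intro p
    rw [Nat.factorization_mul hI0 hJ0, Finsupp.add_apply]
    by_cases hp : p ∈ E
    · have h2 := Finset.ext_iff.mp heq p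
      simp only [Finset.mem_filter, hp, true_and] at h2
      by_cases h3 : Odd ((∏ t ∈ I, t).factorization p)
      · exact h3.add_odd (h2.mp h3)
      · have h4 : ¬ Odd ((∏ t ∈ J, t).factorization p) := fun h => h3 (h2.mpr h)
        rw [Nat.not_odd_iff_even] at h3 h4
        exact h3.add h4
    · rw [hout I hI p hp, hout J hJ p hp]
      exact Even.add Even.zero Even.zero
  have hdec : (∏ t ∈ I, t) * ∏ t ∈ J, t = (∏ t ∈ symmDiff I J, t) * (∏ t ∈ I ∩ J, t) ^ 2 := by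
    have e1 : ∏ t ∈ I, t = (∏ t ∈ I \ J, t) * ∏ t ∈ I ∩ J, t := by
      rw [← Finset.prod_union (Finset.disjoint_sdiff_inter I J), Finset.sdiff_union_inter]
    have e2 : ∏ t ∈ J, t = (∏ t ∈ J \ I, t) * ∏ t ∈ I ∩ J, t := by
      rw [Finset.inter_comm I J,
        ← Finset.prod_union (Finset.disjoint_sdiff_inter J I), Finset.sdiff_union_inter]
    have e3 : ∏ t ∈ symmDiff I J, t = (∏ t ∈ I \ J, t) * ∏ t ∈ J \ I, t := by
      rw [← Finset.prod_union disjoint_sdiff_sdiff]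
      rfl
    rw [e1, e2, e3]
    ring
  obtain ⟨q, hq⟩ := hev
  have hm : ∏ t ∈ I ∩ J, t ≠ 0 := Finset.prod_ne_zero_iff.mpr
    (fun t ht => hpos I hI t (Finset.mem_inter.mp ht).1)
  have hdvd : (∏ t ∈ I ∩ J, t) ∣ q := by
    rw [← Nat.pow_dvd_pow_iff two_ne_zero]
    exact ⟨∏ t ∈ symmDiff I J, t, by rw [pow_two q, ← hq, hdec]; ring⟩
  obtain ⟨r, hr⟩ := hdvd
  refine ⟨r, ?_⟩
  have : (∏ t ∈ symmDiff I J, t) * (∏ t ∈ I ∩ J, t) ^ 2 = (r * r) * (∏ t ∈ I ∩ J, t) ^ 2 := by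
    rw [← hdec, hq, hr]
    ring
  exact Nat.eq_of_mul_eq_mul_right (by positivity) this

lemma two_pow_card_primeFactors_le {D : ℕ} (hD : D ≠ 0) :
    2 ^ D.primeFactors.card ≤ D.divisors.card := by
  rw [Nat.card_divisors hD, ← Finset.prod_const]
  apply Finset.prod_le_prod'
  intro p hp
  have := (Nat.prime_of_mem_primeFactors hp).factorization_pos_of_dvd hD
    (Nat.dvd_of_mem_primeFactors hp)
  omega

lemma TT_dvd {n T t : ℕ} (h : t ∈ TT n T) : t ∣ n * (n + 1) := by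
  obtain ⟨_, d, _, hd⟩ := mem_TT.mp h
  exact ⟨d * (d + 1), by rw [← hd]; ring⟩

/-- no small square relation implies few elements: uniform version -/
lemma choose_le {n T h : ℕ} (hn : 1 ≤ n) (hh : (32 * T) ^ (2 * h) < 4 * n + 2) (hT : 1 ≤ T) :
    (TT n T).card.choose h ≤ (n * (n + 1)).divisors.card := by
  classical
  have hD : n * (n + 1) ≠ 0 := by positivity
  refine le_trans ?_ (two_pow_card_primeFactors_le hD)
  by_contra hcon
  have hlt : 2 ^ (n * (n + 1)).primeFactors.card < ((TT n T).powersetCard h).card := by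
    rw [Finset.card_powersetCard]
    exact not_le.mp hcon
  obtain ⟨I, hI, J, hJ, hne, hsq⟩ := pigeon _ _ (by
      intro I hI t ht
      have := (mem_TT.mp ((Finset.mem_powersetCard.mp hI).1 ht)).1.1
      omega) (by
      intro I hI t ht
      exact Nat.primeFactors_mono (TT_dvd ((Finset.mem_powersetCard.mp hI).1 ht)) hD) hlt
  rw [Finset.mem_powersetCard] at hI hJ
  have hsub : symmDiff I J ⊆ TT n T := by
    intro t ht
    rw [Finset.mem_symmDiff] at ht
    rcases ht with ⟨h1, _⟩ | ⟨h1, _⟩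
    · exact hI.1 h1
    · exact hJ.1 h1
  have hnon : (symmDiff I J).Nonempty := by
    rw [Finset.nonempty_iff_ne_empty]
    intro h0
    apply hne
    exact symmDiff_eq_bot.mp h0
  have hle : (symmDiff I J).card ≤ 2 * h := by
    have h1 : symmDiff I J ⊆ I ∪ J := by
      intro t ht
      rw [Finset.mem_symmDiff] at ht
      rw [Finset.mem_union]
      tauto
    refine le_trans (Finset.card_le_card h1) (le_trans (Finset.card_union_le _ _) ?_)
    omega
  have h3 := indep _ hsub hnon hsq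
  have h4 : (32 * T) ^ (symmDiff I J).card ≤ (32 * T) ^ (2 * h) :=
    Nat.pow_le_pow_right (by omega) hle
  omega

lemma D_le (n : ℕ) : n * (n + 1) ≤ 2 ^ (2 * (Nat.log 2 n) + 2) := by
  have h1 : n < 2 ^ (Nat.log 2 n + 1) := Nat.lt_pow_succ_log_self (by norm_num) n
  calc n * (n + 1) ≤ 2 ^ (Nat.log 2 n + 1) * 2 ^ (Nat.log 2 n + 1) :=
        Nat.mul_le_mul h1.le h1
    _ = 2 ^ (2 * (Nat.log 2 n) + 2) := by rw [← pow_add]; congr 1; ring

lemma count (β : ℝ) (hβ : 0 < β) : ∃ C : ℝ, 1 ≤ C ∧ ∀ n T : ℕ, 1 ≤ n → 1 ≤ T →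
    ((TT n T).card : ℝ) ≤ C * (1 + (Nat.log 2 n : ℝ)) * (T : ℝ) ^ β := by
  obtain ⟨C0, hC0, hdiv⟩ := H353.divisor_bound_real (β / 8) (by positivity)
  set C1 := max C0 1 with hC1
  have hC11 : 1 ≤ C1 := le_max_right _ _
  refine ⟨1 + C1 * 64 ^ β, by
    have : (0:ℝ) ≤ C1 * 64 ^ β := by positivity
    linarith, ?_⟩
  intro n T hn hT
  set ℓ := Nat.log 2 n with hℓ
  set J := Nat.log 2 T + 1 with hJ
  set h := ℓ / (2 * (J + 5)) with hh
  set N := (TT n T).card with hN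
  have hTr : (1:ℝ) ≤ (T:ℝ) := by exact_mod_cast hT
  have hTβ : (1:ℝ) ≤ (T:ℝ) ^ β := Real.one_le_rpow hTr hβ.le
  have hJT : 2 ^ J ≤ 2 * T := by
    rw [hJ, pow_succ, mul_comm]
    exact Nat.mul_le_mul_left _ (Nat.pow_log_le_self 2 (by omega))
  have hTJ : T < 2 ^ J := Nat.lt_pow_succ_log_self (by norm_num) T
  have hnl : 2 ^ ℓ ≤ n := Nat.pow_log_le_self 2 (by omega)
  have hD : n * (n + 1) ≠ 0 := by positivity
  have hDle := D_le n
  rw [← hℓ] at hDle
  have hτ : ((n * (n + 1)).divisors.card : ℝ) ≤ C1 * ((n * (n + 1) : ℕ) : ℝ) ^ (β / 8) := by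
    refine le_trans (hdiv _ hD) ?_
    exact mul_le_mul_of_nonneg_right (le_max_left _ _) (by positivity)
  have hbase : ((2:ℝ) ^ (8 * (J + 5))) ^ (β / 8) ≤ 64 ^ β * (T:ℝ) ^ β := by
    rw [← Real.mul_rpow (by norm_num) (by positivity), mul_comm 8 (J + 5), pow_mul,
      ← Real.rpow_natCast (_ : ℝ) 8, ← Real.rpow_mul (by positivity)]
    have e : ((8 : ℕ) : ℝ) * (β / 8) = β := by push_cast; ring
    rw [e]
    apply Real.rpow_le_rpow (by positivity) _ hβ.le
    have : 2 ^ (J + 5) ≤ 64 * T := by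
      rw [pow_add]
      omega
    exact_mod_cast this
  rcases Nat.eq_zero_or_pos h with h0 | hpos
  · -- trivial range
    have h1 : ℓ < 2 * (J + 5) := by
      rw [hh] at h0
      exact (Nat.div_eq_zero_iff_lt (by omega)).mp h0
    have h2 : N ≤ (n * (n + 1)).divisors.card := by
      apply Finset.card_le_card
      intro t ht
      rw [Nat.mem_divisors]
      exact ⟨TT_dvd ht, hD⟩
    have h3 : ((n * (n + 1) : ℕ) : ℝ) ^ (β / 8) ≤ ((2:ℝ) ^ (8 * (J + 5))) ^ (β / 8) := by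
      apply Real.rpow_le_rpow (by positivity) _ (by positivity)
      have : n * (n + 1) ≤ 2 ^ (8 * (J + 5)) :=
        le_trans hDle (Nat.pow_le_pow_right (by norm_num) (by omega))
      exact_mod_cast this
    have h4 : (N : ℝ) ≤ C1 * (64 ^ β * (T:ℝ) ^ β) := by
      refine le_trans (by exact_mod_cast h2) (le_trans hτ ?_)
      exact mul_le_mul_of_nonneg_left (le_trans h3 hbase) (by positivity)
    have h5 : C1 * (64 ^ β * (T:ℝ) ^ β) ≤ (1 + C1 * 64 ^ β) * (1 + (ℓ:ℝ)) * (T : ℝ) ^ β := by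
      have e1 : (0:ℝ) ≤ (T:ℝ) ^ β := by positivity
      have e2 : (0:ℝ) ≤ (ℓ : ℝ) := by positivity
      have e3 : (0:ℝ) ≤ C1 * 64 ^ β := by positivity
      have e4 : C1 * 64 ^ β ≤ (1 + C1 * 64 ^ β) * (1 + (ℓ:ℝ)) := by nlinarith
      calc C1 * (64 ^ β * (T:ℝ) ^ β) = C1 * 64 ^ β * (T:ℝ) ^ β := by ring
        _ ≤ _ := mul_le_mul_of_nonneg_right e4 e1
    exact le_trans h4 h5
  · -- main range
    have hl1 : 2 * (J + 5) * h ≤ ℓ := Nat.mul_div_le _ _
    have hl2 : ℓ < 2 * (J + 5) * (h + 1) := by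
      rw [hh]
      exact Nat.lt_mul_div_succ _ (by omega)
    have hsmall : (32 * T) ^ (2 * h) < 4 * n + 2 := by
      have h1 : 32 * T ≤ 2 ^ (J + 5) := by
        rw [pow_add]
        omega
      have h2 : (32 * T) ^ (2 * h) ≤ 2 ^ ℓ := by
        refine le_trans (Nat.pow_le_pow_left h1 _) ?_
        rw [← pow_mul]
        apply Nat.pow_le_pow_right (by norm_num)
        calc (J + 5) * (2 * h) = 2 * (J + 5) * h := by ring
          _ ≤ ℓ := hl1
      omega
    have h1 := choose_le hn hsmall hT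
    rw [← hN] at h1
    have h2 : (((N + 1 - h : ℕ) : ℝ)) ^ h ≤ (h.factorial : ℝ) * (N.choose h : ℝ) := by
      have := Nat.pow_le_choose (α := ℝ) h N
      rw [div_le_iff₀ (by positivity)] at this
      linarith
    have h3 : (h.factorial : ℝ) ≤ (h : ℝ) ^ h := by exact_mod_cast Nat.factorial_le_pow h
    have h4 : ((n * (n + 1) : ℕ) : ℝ) ^ (β / 8) ≤ (((2:ℝ) ^ (8 * (J + 5))) ^ (β / 8)) ^ h := by
      rw [← Real.rpow_natCast (_ ^ (β / 8)) h, ← Real.rpow_mul (by positivity),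
        mul_comm (β / 8) (h : ℝ), Real.rpow_mul (by positivity), Real.rpow_natCast]
      apply Real.rpow_le_rpow (by positivity) _ (by positivity)
      have : n * (n + 1) ≤ (2 ^ (8 * (J + 5))) ^ h := by
        refine le_trans hDle ?_
        rw [← pow_mul]
        apply Nat.pow_le_pow_right (by norm_num)
        nlinarith
      exact_mod_cast this
    have h5 : (((N + 1 - h : ℕ) : ℝ)) ^ h ≤
        ((h:ℝ) * (C1 * (64 ^ β * (T:ℝ) ^ β))) ^ h := by
      calc (((N + 1 - h : ℕ) : ℝ)) ^ h ≤ (h.factorial : ℝ) * (N.choose h : ℝ) := h2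
        _ ≤ (h : ℝ) ^ h * (C1 * ((n * (n + 1) : ℕ) : ℝ) ^ (β / 8)) := by
            apply mul_le_mul h3 (le_trans (by exact_mod_cast h1) hτ) (by positivity)
              (by positivity)
        _ ≤ (h : ℝ) ^ h * (C1 ^ h * (64 ^ β * (T:ℝ) ^ β) ^ h) := by
            apply mul_le_mul_of_nonneg_left _ (by positivity)
            apply mul_le_mul
            · calc C1 = C1 ^ 1 := (pow_one _).symm
                _ ≤ C1 ^ h := pow_le_pow_right₀ hC11 hpos
            · refine le_trans h4 (pow_le_pow_left₀ (by positivity) hbase _)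
            · positivity
            · positivity
        _ = _ := by rw [mul_pow (h : ℝ), mul_pow C1]
    have h6 : ((N + 1 - h : ℕ) : ℝ) ≤ (h:ℝ) * (C1 * (64 ^ β * (T:ℝ) ^ β)) :=
      le_of_pow_le_pow_left₀ (by omega) (by positivity) h5
    have h7 : (N : ℝ) ≤ (h : ℝ) + ((N + 1 - h : ℕ) : ℝ) := by
      have : N ≤ h + (N + 1 - h) := by omega
      exact_mod_cast this
    have h8 : (h : ℝ) ≤ (ℓ : ℝ) := by
      have : h ≤ ℓ := Nat.div_le_self _ _
      exact_mod_cast this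
    have e1 : (0:ℝ) ≤ C1 * 64 ^ β := by positivity
    have e2 : (0:ℝ) ≤ (h:ℝ) := by positivity
    calc (N : ℝ) ≤ (h : ℝ) + (h:ℝ) * (C1 * (64 ^ β * (T:ℝ) ^ β)) := by linarith
      _ ≤ (h : ℝ) * (T:ℝ) ^ β + (h:ℝ) * (C1 * (64 ^ β * (T:ℝ) ^ β)) := by nlinarith
      _ = (1 + C1 * 64 ^ β) * (h:ℝ) * (T:ℝ) ^ β := by ring
      _ ≤ (1 + C1 * 64 ^ β) * (1 + (ℓ:ℝ)) * (T : ℝ) ^ β := by
          apply mul_le_mul_of_nonneg_right _ (by positivity)
          apply mul_le_mul_of_nonneg_left _ (by positivity)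
          linarith

lemma two_pow_omega_le {s : ℕ} (hs : s ≠ 0) : 2 ^ s.primeFactors.card ≤ s := by
  refine le_trans ?_ (Nat.le_of_dvd (Nat.pos_of_ne_zero hs) (Nat.prod_primeFactors_dvd s))
  rw [← Finset.prod_const]
  apply Finset.prod_le_prod'
  intro p hp
  exact (Nat.prime_of_mem_primeFactors hp).two_le

lemma card_dvd_le {n s L : ℕ} (hs0 : s ≠ 0) (hs : s < 2 ^ L)
    (hL : (32 * 2 ^ L) ^ L < 4 * n + 2) :
    ((TT n (2 ^ L)).filter (fun t => t ∣ s)).card ≤ s.primeFactors.card := by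
  classical
  by_contra hcon
  have hcon' : s.primeFactors.card + 1 ≤ ((TT n (2 ^ L)).filter (fun t => t ∣ s)).card :=
    not_le.mp hcon
  obtain ⟨R, hR, hRc⟩ := Finset.exists_subset_card_eq hcon'
  have hRT : R ⊆ TT n (2 ^ L) := fun t ht => (Finset.mem_filter.mp (hR ht)).1
  obtain ⟨I, hI, J, hJ, hne, hsq⟩ := pigeon s.primeFactors R.powerset (by
      intro I hI t ht
      have := (mem_TT.mp (hRT (Finset.mem_powerset.mp hI ht))).1.1
      omega) (by
      intro I hI t ht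
      exact Nat.primeFactors_mono (Finset.mem_filter.mp (hR (Finset.mem_powerset.mp hI ht))).2 hs0)
      (by
        rw [Finset.card_powerset, hRc]
        exact Nat.pow_lt_pow_right (by norm_num) (by omega))
  rw [Finset.mem_powerset] at hI hJ
  have hsub : symmDiff I J ⊆ R := by
    intro t ht
    rw [Finset.mem_symmDiff] at ht
    rcases ht with ⟨h1, _⟩ | ⟨h1, _⟩
    · exact hI h1
    · exact hJ h1
  have hnon : (symmDiff I J).Nonempty := by
    rw [Finset.nonempty_iff_ne_empty]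
    intro h0
    apply hne
    exact symmDiff_eq_bot.mp h0
  have h3 := indep _ (hsub.trans hRT) hnon hsq
  have hw : s.primeFactors.card < L := by
    have := two_pow_omega_le hs0
    exact (Nat.pow_lt_pow_iff_right (by norm_num : 1 < 2)).mp (lt_of_le_of_lt this hs)
  have hle : (symmDiff I J).card ≤ L := by
    have := Finset.card_le_card hsub
    omega
  have h4 : (32 * 2 ^ L) ^ (symmDiff I J).card ≤ (32 * 2 ^ L) ^ L :=
    Nat.pow_le_pow_right (by positivity) hle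
  omega

lemma chain_sum (F : Finset ℕ) (q : ℕ → ℕ)
    (hq : ∀ e ∈ F, q e ≤ (F.filter (fun x => e ≤ x)).card) :
    2 + ∑ e ∈ F, 2 ^ q e ≤ 2 ^ (F.card + 1) := by
  classical
  induction F using Finset.induction_on_min with
  | empty => simp
  | insert a s has ih =>
    have hna : a ∉ s := fun h => lt_irrefl _ (has a h)
    rw [Finset.sum_insert hna, Finset.card_insert_of_notMem hna]
    have h1 := ih (by
      intro e he
      have h2 := hq e (Finset.mem_insert_of_mem he)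
      rw [Finset.filter_insert, if_neg (not_le.mpr (has e he))] at h2
      exact h2)
    have h3 : q a ≤ s.card + 1 := by
      refine le_trans (hq a (Finset.mem_insert_self _ _)) ?_
      refine le_trans (Finset.card_filter_le _ _) ?_
      rw [Finset.card_insert_of_notMem hna]
    have h4 : 2 ^ q a ≤ 2 ^ (s.card + 1) := Nat.pow_le_pow_right (by norm_num) h3
    have h5 : 2 ^ (s.card + 1 + 1) = 2 ^ (s.card + 1) + 2 ^ (s.card + 1) := by
      rw [pow_succ 2 (s.card + 1)]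
      ring
    omega

/-- near predecessors -/
def S (n L : ℕ) : Finset ℕ := (P n).filter (fun d => n * (n + 1) < 2 ^ L * (d * (d + 1)))

def Q (n L d : ℕ) : Finset ℕ := (S n L).filter (fun e => d * (d + 1) ∣ e * (e + 1))

lemma mem_S {n L d : ℕ} : d ∈ S n L ↔ d ∈ P n ∧ n * (n + 1) < 2 ^ L * (d * (d + 1)) := by
  unfold S
  rw [Finset.mem_filter]

lemma mem_Q {n L d e : ℕ} : e ∈ Q n L d ↔ e ∈ S n L ∧ d * (d + 1) ∣ e * (e + 1) := by
  unfold Q
  rw [Finset.mem_filter]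

lemma tri_inj {a b : ℕ} (h : a * (a + 1) = b * (b + 1)) : a = b := by
  rcases lt_trichotomy a b with h1 | h1 | h1
  · nlinarith
  · exact h1
  · nlinarith

lemma le_of_tri_dvd {a b : ℕ} (hb : 1 ≤ b) (h : a * (a + 1) ∣ b * (b + 1)) : a ≤ b := by
  have h1 := Nat.le_of_dvd (by positivity) h
  by_contra hcon
  rw [not_le] at hcon
  nlinarith

lemma chain_Q {n L d : ℕ} (hd : d ∈ S n L) :
    2 + ∑ e ∈ (S n L).filter (fun e => d ∈ P e), 2 ^ (Q n L e).card ≤ 2 ^ (Q n L d).card := by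
  classical
  have hd1 : 1 ≤ d := (mem_P.mp (mem_S.mp hd).1).1.1
  have hset : (S n L).filter (fun e => d ∈ P e) = (Q n L d).erase d := by
    ext e
    rw [Finset.mem_filter, Finset.mem_erase, mem_Q, mem_P]
    constructor
    · rintro ⟨h1, ⟨_, h2⟩, h3⟩
      exact ⟨by omega, h1, h3⟩
    · rintro ⟨h1, h2, h3⟩
      have he1 : 1 ≤ e := (mem_P.mp (mem_S.mp h2).1).1.1
      have := le_of_tri_dvd he1 h3
      exact ⟨h2, ⟨hd1, by omega⟩, h3⟩
  have hdQ : d ∈ Q n L d := mem_Q.mpr ⟨hd, dvd_rfl⟩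
  rw [hset]
  have h1 := chain_sum ((Q n L d).erase d) (fun e => (Q n L e).card) (by
    intro e he
    rw [← hset, Finset.mem_filter] at he
    obtain ⟨heS, hde⟩ := he
    have hde' := mem_P.mp hde
    apply Finset.card_le_card
    intro x hx
    obtain ⟨hxS, hex⟩ := mem_Q.mp hx
    have hx1 : 1 ≤ x := (mem_P.mp (mem_S.mp hxS).1).1.1
    have hle := le_of_tri_dvd hx1 hex
    rw [Finset.mem_filter, Finset.mem_erase, mem_Q]
    exact ⟨⟨by omega, hxS, hde'.2.trans hex⟩, hle⟩)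
  have h2 : ((Q n L d).erase d).card + 1 = (Q n L d).card := by
    rw [Finset.card_erase_of_mem hdQ]
    have : 0 < (Q n L d).card := Finset.card_pos.mpr ⟨d, hdQ⟩
    omega
  rw [h2] at h1
  exact h1

/-- **Expansion lemma.** -/
lemma expansion (f : ℕ → ℝ) (hf0 : ∀ n, 0 ≤ f n) (hf : ∀ n, 2 ≤ n → f n ≤ ∑ d ∈ P n, f d)
    {n L : ℕ} (hn : 2 ≤ n) (hnL : 2 ^ (L + 1) ≤ n * (n + 1)) :
    2 * f n ≤ (2 + ∑ d ∈ S n L, (2:ℝ) ^ (Q n L d).card) * ∑ d ∈ P n \ S n L, f d := by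
  classical
  have hS2 : ∀ d ∈ S n L, 2 ≤ d := by
    intro d hd
    obtain ⟨h1, h2⟩ := mem_S.mp hd
    have h3 := (mem_P.mp h1).1.1
    by_contra hcon
    have : d = 1 := by omega
    subst this
    rw [pow_succ] at hnL
    omega
  have hSP : S n L ⊆ P n := Finset.filter_subset _ _
  have hPP : ∀ d ∈ S n L, P d ⊆ P n := by
    intro d hd x hx
    have h1 := mem_P.mp (hSP hd)
    have h2 := mem_P.mp hx
    exact mem_P.mpr ⟨⟨h2.1.1, by omega⟩, h2.2.trans h1.2⟩
  -- the double count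
  have key : ∑ d ∈ S n L, (2:ℝ) ^ (Q n L d).card * ∑ x ∈ P d, f x
      = ∑ x ∈ P n, f x * ∑ d ∈ (S n L).filter (fun d => x ∈ P d), (2:ℝ) ^ (Q n L d).card := by
    have h1 : ∀ d ∈ S n L, (2:ℝ) ^ (Q n L d).card * ∑ x ∈ P d, f x
        = ∑ x ∈ P n, (if x ∈ P d then (2:ℝ) ^ (Q n L d).card * f x else 0) := by
      intro d hd
      rw [← Finset.sum_filter, Finset.mul_sum]
      apply Finset.sum_congr _ (fun _ _ => rfl)
      ext x
      rw [Finset.mem_filter]
      exact ⟨fun h => ⟨hPP d hd h, h⟩, fun h => h.2⟩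
    rw [Finset.sum_congr rfl h1, Finset.sum_comm]
    apply Finset.sum_congr rfl
    intro x _
    rw [Finset.mul_sum, Finset.sum_filter]
    apply Finset.sum_congr rfl
    intro d _
    split_ifs
    · ring
    · rfl
  have hup : 2 * f n + ∑ d ∈ S n L, (2:ℝ) ^ (Q n L d).card * f d
      ≤ ∑ x ∈ P n, f x * (2 + ∑ d ∈ (S n L).filter (fun d => x ∈ P d),
        (2:ℝ) ^ (Q n L d).card) := by
    have h1 : ∑ d ∈ S n L, (2:ℝ) ^ (Q n L d).card * f d
        ≤ ∑ d ∈ S n L, (2:ℝ) ^ (Q n L d).card * ∑ x ∈ P d, f x := by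
      apply Finset.sum_le_sum
      intro d hd
      exact mul_le_mul_of_nonneg_left (hf d (hS2 d hd)) (by positivity)
    have h2 := hf n hn
    have h3 : ∑ x ∈ P n, f x * (2 + ∑ d ∈ (S n L).filter (fun d => x ∈ P d),
        (2:ℝ) ^ (Q n L d).card) = 2 * ∑ x ∈ P n, f x + ∑ x ∈ P n, f x *
        ∑ d ∈ (S n L).filter (fun d => x ∈ P d), (2:ℝ) ^ (Q n L d).card := by
      rw [Finset.mul_sum, ← Finset.sum_add_distrib]
      apply Finset.sum_congr rfl
      intro x _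
      ring
    rw [h3, ← key]
    linarith
  have hsplit : ∑ x ∈ P n, f x * (2 + ∑ d ∈ (S n L).filter (fun d => x ∈ P d),
        (2:ℝ) ^ (Q n L d).card)
      ≤ (2 + ∑ d ∈ S n L, (2:ℝ) ^ (Q n L d).card) * ∑ d ∈ P n \ S n L, f d
        + ∑ d ∈ S n L, (2:ℝ) ^ (Q n L d).card * f d := by
    rw [← Finset.sum_sdiff hSP]
    apply add_le_add
    · rw [Finset.mul_sum]
      apply Finset.sum_le_sum
      intro x _
      rw [mul_comm]
      apply mul_le_mul_of_nonneg_right _ (hf0 x)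
      have : ∑ d ∈ (S n L).filter (fun d => x ∈ P d), (2:ℝ) ^ (Q n L d).card
          ≤ ∑ d ∈ S n L, (2:ℝ) ^ (Q n L d).card :=
        Finset.sum_le_sum_of_subset_of_nonneg (Finset.filter_subset _ _)
          (fun _ _ _ => by positivity)
      linarith
    · apply Finset.sum_le_sum
      intro x hx
      rw [mul_comm]
      apply mul_le_mul_of_nonneg_right _ (hf0 x)
      have := chain_Q hx
      exact_mod_cast this
  linarith

/-- the quotient attached to a predecessor -/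
lemma quot_spec {n d : ℕ} (hd : d ∈ P n) :
    d * (d + 1) * (n * (n + 1) / (d * (d + 1))) = n * (n + 1) :=
  Nat.mul_div_cancel' (mem_P.mp hd).2

lemma quot_two_le {n d : ℕ} (hd : d ∈ P n) : 2 ≤ n * (n + 1) / (d * (d + 1)) := by
  have h1 := quot_spec hd
  have h2 := mem_P.mp hd
  generalize n * (n + 1) / (d * (d + 1)) = t at h1 ⊢
  by_contra hcon
  have h3 : t = 0 ∨ t = 1 := by omega
  rcases h3 with h3 | h3
  · rw [h3] at h1
    have : 0 < n * (n + 1) := Nat.mul_pos (by omega) (by omega)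
    omega
  · rw [h3, mul_one] at h1
    have := tri_inj h1
    omega

lemma quot_inj {n d e : ℕ} (hd : d ∈ P n) (he : e ∈ P n)
    (h : n * (n + 1) / (d * (d + 1)) = n * (n + 1) / (e * (e + 1))) : d = e := by
  have h1 := quot_spec hd
  have h2 := quot_spec he
  have h3 := quot_two_le hd
  rw [← h] at h2
  apply tri_inj
  have h4 := h1.trans h2.symm
  exact Nat.eq_of_mul_eq_mul_right (by omega) h4

lemma quot_mem_TT {n d T : ℕ} (hd : d ∈ P n) (hT : n * (n + 1) / (d * (d + 1)) ≤ T) :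
    n * (n + 1) / (d * (d + 1)) ∈ TT n T :=
  mem_TT.mpr ⟨⟨quot_two_le hd, hT⟩, d, (mem_P.mp hd).1.1, quot_spec hd⟩

lemma quot_lt {n d L : ℕ} (hd : d ∈ S n L) : n * (n + 1) / (d * (d + 1)) < 2 ^ L := by
  obtain ⟨h1, h2⟩ := mem_S.mp hd
  have h3 := quot_spec h1
  rw [← h3, mul_comm] at h2
  exact Nat.lt_of_mul_lt_mul_right h2

lemma card_S_le (n L : ℕ) : (S n L).card ≤ (TT n (2 ^ L)).card := by
  apply Finset.card_le_card_of_injOn (fun d => n * (n + 1) / (d * (d + 1)))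
  · intro d hd
    exact quot_mem_TT (mem_S.mp hd).1 (quot_lt hd).le
  · intro d hd e he h
    exact quot_inj (mem_S.mp hd).1 (mem_S.mp he).1 h

lemma card_Q_le {n L d : ℕ} (hL : (32 * 2 ^ L) ^ L < 4 * n + 2) (hd : d ∈ S n L) :
    (Q n L d).card ≤ (n * (n + 1) / (d * (d + 1))).primeFactors.card := by
  classical
  have hdP := (mem_S.mp hd).1
  have h2 := quot_two_le hdP
  refine le_trans ?_ (card_dvd_le (by omega) (quot_lt hd) hL)
  apply Finset.card_le_card_of_injOn (fun e => n * (n + 1) / (e * (e + 1)))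
  · intro e he
    obtain ⟨heS, hde⟩ := mem_Q.mp he
    have heP := (mem_S.mp heS).1
    rw [Finset.mem_coe, Finset.mem_filter]
    refine ⟨quot_mem_TT heP (quot_lt heS).le, ?_⟩
    obtain ⟨u, hu⟩ := hde
    refine ⟨u, ?_⟩
    show n * (n + 1) / (d * (d + 1)) = n * (n + 1) / (e * (e + 1)) * u
    have h3 := quot_spec hdP
    have h4 := quot_spec heP
    rw [hu] at h4 ⊢
    have hd0 : 0 < d * (d + 1) := by
      have := (mem_P.mp hdP).1.1
      positivity
    apply Nat.eq_of_mul_eq_mul_left hd0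
    rw [h3]
    conv_lhs => rw [← h4]
    ring
  · intro e he e' he' h
    exact quot_inj (mem_S.mp (mem_Q.mp he).1).1 (mem_S.mp (mem_Q.mp he').1).1 h

lemma weight_le {β C Cτ : ℝ} (hβ : 0 < β) (hC : 1 ≤ C) (hCτ : 1 ≤ Cτ)
    (hcount : ∀ n T : ℕ, 1 ≤ n → 1 ≤ T →
      ((TT n T).card : ℝ) ≤ C * (1 + (Nat.log 2 n : ℝ)) * (T : ℝ) ^ β)
    (hdiv : ∀ m : ℕ, m ≠ 0 → (m.divisors.card : ℝ) ≤ Cτ * (m : ℝ) ^ β)
    {n L : ℕ} (hn : 1 ≤ n) (hL : (32 * 2 ^ L) ^ L < 4 * n + 2) :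
    2 + ∑ d ∈ S n L, (2:ℝ) ^ (Q n L d).card ≤
      3 * (C * Cτ) * (1 + (Nat.log 2 n : ℝ)) * (((2:ℝ) ^ β) ^ L) ^ 2 := by
  set b : ℝ := (2:ℝ) ^ β with hb
  have hb1 : 1 ≤ b := Real.one_le_rpow (by norm_num) hβ.le
  have hbL : 1 ≤ b ^ L := one_le_pow₀ hb1
  have hpow : ((2 ^ L : ℕ) : ℝ) ^ β = b ^ L := by
    push_cast
    rw [hb, ← Real.rpow_natCast, ← Real.rpow_natCast, ← Real.rpow_mul (by norm_num),
      ← Real.rpow_mul (by norm_num), mul_comm]
  have h1 : ∀ d ∈ S n L, (2:ℝ) ^ (Q n L d).card ≤ Cτ * b ^ L := by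
    intro d hd
    have h2 := card_Q_le hL hd
    have hdP := (mem_S.mp hd).1
    have h3 := quot_two_le hdP
    set m := n * (n + 1) / (d * (d + 1)) with hm
    have h4 : 2 ^ (Q n L d).card ≤ m.divisors.card :=
      le_trans (Nat.pow_le_pow_right (by norm_num) h2) (two_pow_card_primeFactors_le (by omega))
    have h5 : (2:ℝ) ^ (Q n L d).card ≤ (m.divisors.card : ℝ) := by exact_mod_cast h4
    refine le_trans h5 (le_trans (hdiv m (by omega)) ?_)
    apply mul_le_mul_of_nonneg_left _ (by linarith)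
    rw [← hpow]
    apply Real.rpow_le_rpow (by positivity) _ hβ.le
    exact_mod_cast (quot_lt hd).le
  have h2 : ∑ d ∈ S n L, (2:ℝ) ^ (Q n L d).card ≤ (S n L).card * (Cτ * b ^ L) := by
    refine le_trans (Finset.sum_le_sum h1) ?_
    rw [Finset.sum_const, nsmul_eq_mul]
  have h3 : ((S n L).card : ℝ) ≤ C * (1 + (Nat.log 2 n : ℝ)) * b ^ L := by
    refine le_trans (Nat.cast_le.mpr (card_S_le n L)) ?_
    have := hcount n (2 ^ L) hn (Nat.one_le_two_pow)
    rwa [hpow] at this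
  have hl : (0:ℝ) ≤ (Nat.log 2 n : ℝ) := by positivity
  have h4 : ((S n L).card : ℝ) * (Cτ * b ^ L)
      ≤ (C * Cτ) * (1 + (Nat.log 2 n : ℝ)) * (b ^ L) ^ 2 := by
    calc ((S n L).card : ℝ) * (Cτ * b ^ L)
        ≤ (C * (1 + (Nat.log 2 n : ℝ)) * b ^ L) * (Cτ * b ^ L) :=
          mul_le_mul_of_nonneg_right h3 (by positivity)
      _ = _ := by ring
  have h5 : 1 ≤ (C * Cτ) * (1 + (Nat.log 2 n : ℝ)) * (b ^ L) ^ 2 := by
    have e1 : 1 ≤ C * Cτ := one_le_mul_of_one_le_of_one_le hC hCτ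
    have e2 : (1:ℝ) ≤ 1 + (Nat.log 2 n : ℝ) := by linarith
    have e3 : 1 ≤ (b ^ L) ^ 2 := one_le_pow₀ hbL
    exact one_le_mul_of_one_le_of_one_le (one_le_mul_of_one_le_of_one_le e1 e2) e3
  linarith

lemma pow_bound {n d : ℕ} {a : ℝ} (ha : 0 < a) (hn : 1 ≤ n) (hd : d ∈ P n) {j : ℕ}
    (hj : 2 ^ j ≤ n * (n + 1) / (d * (d + 1))) :
    (d : ℝ) ^ a ≤ 2 ^ a * (n : ℝ) ^ a * (((2:ℝ) ^ (a / 2)) ^ j)⁻¹ := by
  have h1 := quot_spec hd
  set t := n * (n + 1) / (d * (d + 1)) with ht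
  have h2 : d * d * 2 ^ j ≤ 2 * n * (2 * n) := by
    have h3 : d * d * 2 ^ j ≤ d * (d + 1) * t := Nat.mul_le_mul (Nat.mul_le_mul_left _ (by omega)) hj
    nlinarith
  have h3 : ((d:ℝ) * d) * 2 ^ j ≤ (2 * n) * (2 * n) := by exact_mod_cast h2
  have h4 : (((d:ℝ) * d) * 2 ^ j) ^ (a / 2) ≤ ((2 * (n:ℝ)) * (2 * n)) ^ (a / 2) :=
    Real.rpow_le_rpow (by positivity) h3 (by positivity)
  have e1 : ∀ x : ℝ, 0 ≤ x → (x * x) ^ (a / 2) = x ^ a := by
    intro x hx
    rw [Real.mul_rpow hx hx, ← Real.rpow_add_of_nonneg hx (by positivity) (by positivity)]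
    congr 1
    ring
  rw [Real.mul_rpow (by positivity) (by positivity), e1 _ (by positivity), e1 _ (by positivity),
    Real.mul_rpow (by norm_num) (by positivity)] at h4
  have e2 : ((2:ℝ) ^ j) ^ (a / 2) = ((2:ℝ) ^ (a / 2)) ^ j := by
    rw [← Real.rpow_natCast, ← Real.rpow_natCast, ← Real.rpow_mul (by norm_num),
      ← Real.rpow_mul (by norm_num), mul_comm]
  rw [e2] at h4
  rwa [← div_eq_mul_inv, le_div_iff₀ (by positivity)]

lemma tail_le {β C a : ℝ} (hC : 1 ≤ C) (ha : 0 < a) (hβa : β < a / 2)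
    (hcount : ∀ n T : ℕ, 1 ≤ n → 1 ≤ T →
      ((TT n T).card : ℝ) ≤ C * (1 + (Nat.log 2 n : ℝ)) * (T : ℝ) ^ β)
    {n L : ℕ} (hn : 1 ≤ n) :
    ∑ d ∈ P n \ S n L, (d : ℝ) ^ a ≤
      (C * (2:ℝ) ^ β * 2 ^ a / (1 - (2:ℝ) ^ β / (2:ℝ) ^ (a / 2))) * (1 + (Nat.log 2 n : ℝ))
        * (n : ℝ) ^ a * ((2:ℝ) ^ β / (2:ℝ) ^ (a / 2)) ^ L := by
  classical
  set b : ℝ := (2:ℝ) ^ β with hb
  set c : ℝ := (2:ℝ) ^ (a / 2) with hc
  have hb0 : 0 < b := by positivity
  have hc0 : 0 < c := by positivity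
  have hr1 : b / c < 1 := by
    rw [div_lt_one hc0]
    exact Real.rpow_lt_rpow_of_exponent_lt (by norm_num) hβa
  have hr0 : 0 ≤ b / c := by positivity
  set j : ℕ → ℕ := fun d => Nat.log 2 (n * (n + 1) / (d * (d + 1))) with hj
  have hmem : ∀ d ∈ P n \ S n L, d ∈ P n ∧ 2 ^ L ≤ n * (n + 1) / (d * (d + 1)) := by
    intro d hd
    rw [Finset.mem_sdiff, mem_S] at hd
    obtain ⟨h1, h2⟩ := hd
    refine ⟨h1, ?_⟩
    have h3 : 2 ^ L * (d * (d + 1)) ≤ n * (n + 1) := by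
      by_contra hcon
      exact h2 ⟨h1, not_le.mp hcon⟩
    have hd1 := (mem_P.mp h1).1.1
    exact (Nat.le_div_iff_mul_le (by positivity)).mpr h3
  have hmaps : ∀ d ∈ P n \ S n L, j d ∈ Finset.Ico L (n * (n + 1) + 1) := by
    intro d hd
    obtain ⟨h1, h2⟩ := hmem d hd
    have h3 := quot_two_le h1
    rw [Finset.mem_Ico]
    constructor
    · exact (Nat.le_log_iff_pow_le (by norm_num) (by omega)).mpr h2
    · have h4 : n * (n + 1) / (d * (d + 1)) ≤ n * (n + 1) := Nat.div_le_self _ _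
      have h5 : Nat.log 2 (n * (n + 1) / (d * (d + 1))) ≤ n * (n + 1) / (d * (d + 1)) :=
        Nat.log_le_self _ _
      exact Nat.lt_succ_of_le (h5.trans h4)
  rw [← Finset.sum_fiberwise_of_maps_to hmaps]
  have hfib : ∀ i ∈ Finset.Ico L (n * (n + 1) + 1),
      ∑ d ∈ (P n \ S n L).filter (fun d => j d = i), (d : ℝ) ^ a
      ≤ (C * b * 2 ^ a * (1 + (Nat.log 2 n : ℝ)) * (n : ℝ) ^ a) * (b / c) ^ i := by
    intro i _
    have h1 : ∀ d ∈ (P n \ S n L).filter (fun d => j d = i),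
        (d : ℝ) ^ a ≤ 2 ^ a * (n : ℝ) ^ a * (c ^ i)⁻¹ := by
      intro d hd
      rw [Finset.mem_filter] at hd
      obtain ⟨h1, h2⟩ := hmem d hd.1
      have h3 := quot_two_le h1
      apply pow_bound ha hn h1
      rw [← hd.2]
      exact Nat.pow_log_le_self 2 (by omega)
    refine le_trans (Finset.sum_le_sum h1) ?_
    rw [Finset.sum_const, nsmul_eq_mul]
    have h2 : ((P n \ S n L).filter (fun d => j d = i)).card ≤ (TT n (2 ^ (i + 1))).card := by
      apply Finset.card_le_card_of_injOn (fun d => n * (n + 1) / (d * (d + 1)))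
      · intro d hd
        rw [Finset.mem_coe, Finset.mem_filter] at hd
        obtain ⟨h1, h2⟩ := hmem d hd.1
        apply quot_mem_TT h1
        have := Nat.lt_pow_succ_log_self (by norm_num : 1 < 2) (n * (n + 1) / (d * (d + 1)))
        rw [← hd.2]
        exact this.le
      · intro d hd e he h
        rw [Finset.mem_coe, Finset.mem_filter] at hd he
        exact quot_inj (hmem d hd.1).1 (hmem e he.1).1 h
    have h3 : (((P n \ S n L).filter (fun d => j d = i)).card : ℝ)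
        ≤ C * (1 + (Nat.log 2 n : ℝ)) * b ^ (i + 1) := by
      refine le_trans (Nat.cast_le.mpr h2) ?_
      have := hcount n (2 ^ (i + 1)) hn (Nat.one_le_two_pow)
      have hpow : ((2 ^ (i + 1) : ℕ) : ℝ) ^ β = b ^ (i + 1) := by
        push_cast
        rw [hb, ← Real.rpow_natCast, ← Real.rpow_natCast, ← Real.rpow_mul (by norm_num),
          ← Real.rpow_mul (by norm_num), mul_comm]
      rwa [hpow] at this
    calc (((P n \ S n L).filter (fun d => j d = i)).card : ℝ) * (2 ^ a * (n : ℝ) ^ a * (c ^ i)⁻¹)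
        ≤ (C * (1 + (Nat.log 2 n : ℝ)) * b ^ (i + 1)) * (2 ^ a * (n : ℝ) ^ a * (c ^ i)⁻¹) :=
          mul_le_mul_of_nonneg_right h3 (by positivity)
      _ = _ := by
          rw [div_pow, pow_succ]
          field_simp
  refine le_trans (Finset.sum_le_sum hfib) ?_
  rw [← Finset.mul_sum]
  have hg := geom_sum_Ico_le_of_lt_one (m := L) (n := n * (n + 1) + 1) hr0 hr1
  calc (C * b * 2 ^ a * (1 + (Nat.log 2 n : ℝ)) * (n : ℝ) ^ a) *
        ∑ i ∈ Finset.Ico L (n * (n + 1) + 1), (b / c) ^ i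
      ≤ (C * b * 2 ^ a * (1 + (Nat.log 2 n : ℝ)) * (n : ℝ) ^ a) * ((b / c) ^ L / (1 - b / c)) :=
        mul_le_mul_of_nonneg_left hg (by positivity)
    _ = _ := by ring

lemma level {n : ℕ} (hn : 2 ≤ n) :
    (32 * 2 ^ (Nat.sqrt (Nat.log 2 n) / 3)) ^ (Nat.sqrt (Nat.log 2 n) / 3) < 4 * n + 2 ∧
    2 ^ (Nat.sqrt (Nat.log 2 n) / 3 + 1) ≤ n * (n + 1) ∧
    1 + Nat.log 2 n ≤ 9 * (Nat.sqrt (Nat.log 2 n) / 3 + 1) ^ 2 := by
  set ℓ := Nat.log 2 n with hℓ
  set s := Nat.sqrt ℓ with hs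
  set L := s / 3 with hL
  have h1 : s * s ≤ ℓ := Nat.sqrt_le _
  have h2 : ℓ < (s + 1) * (s + 1) := Nat.lt_succ_sqrt _
  have h3 : 3 * L ≤ s := by omega
  have h4 : s < 3 * (L + 1) := by omega
  have hnl : 2 ^ ℓ ≤ n := Nat.pow_log_le_self 2 (by omega)
  have h5 : 9 * (L * L) ≤ ℓ := by nlinarith
  refine ⟨?_, ?_, ?_⟩
  · have e : 32 * 2 ^ L = 2 ^ (5 + L) := by rw [pow_add]; norm_num
    rw [e, ← pow_mul]
    have h6 : (5 + L) * L ≤ ℓ := by
      rcases Nat.eq_zero_or_pos L with h0 | h0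
      · rw [h0]; omega
      · nlinarith
    have h7 : 2 ^ ((5 + L) * L) ≤ 2 ^ ℓ := Nat.pow_le_pow_right (by norm_num) h6
    omega
  · have h6 : L ≤ ℓ := by nlinarith [Nat.le_mul_self L]
    have h7 : 2 ^ L ≤ 2 ^ ℓ := Nat.pow_le_pow_right (by norm_num) h6
    rw [pow_succ]
    exact Nat.mul_le_mul (h7.trans hnl) (by omega)
  · nlinarith

/-- **Growth theorem.** A nonnegative function with `f n ≤ ∑_{d ≺ n} f d` for `n ≥ 2` grows
slower than any power. -/
theorem growth (f : ℕ → ℝ) (hf0 : ∀ n, 0 ≤ f n) (hf : ∀ n, 2 ≤ n → f n ≤ ∑ d ∈ P n, f d)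
    {a : ℝ} (ha : 0 < a) : ∃ A : ℝ, 0 ≤ A ∧ ∀ n : ℕ, 1 ≤ n → f n ≤ A * (n : ℝ) ^ a := by
  obtain ⟨C, hC1, hcount⟩ := count (a / 12) (by positivity)
  obtain ⟨C0, hC0, hdiv0⟩ := H353.divisor_bound_real (a / 12) (by positivity)
  set Cτ := max C0 1 with hCτ
  have hCτ1 : 1 ≤ Cτ := le_max_right _ _
  have hdiv : ∀ m : ℕ, m ≠ 0 → (m.divisors.card : ℝ) ≤ Cτ * (m : ℝ) ^ (a / 12) := fun m hm =>
    le_trans (hdiv0 m hm) (mul_le_mul_of_nonneg_right (le_max_left _ _) (by positivity))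
  set b : ℝ := (2:ℝ) ^ (a / 12) with hb
  set c : ℝ := (2:ℝ) ^ (a / 2) with hc
  have hb0 : 0 < b := by positivity
  have hc0 : 0 < c := by positivity
  have hr1 : b / c < 1 := by
    rw [div_lt_one hc0]
    exact Real.rpow_lt_rpow_of_exponent_lt (by norm_num) (by linarith)
  set K : ℝ := C * b * 2 ^ a / (1 - b / c) with hK
  have hK0 : 0 ≤ K := by
    have : 0 < 1 - b / c := by linarith
    positivity
  set ρ : ℝ := b ^ 2 * (b / c) with hρ
  have hρ0 : 0 < ρ := by positivity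
  have hρ1 : ρ < 1 := by
    have e : ρ = (2:ℝ) ^ (-(a / 4)) := by
      rw [hρ, hb, hc, ← Real.rpow_sub (by norm_num), ← Real.rpow_natCast,
        ← Real.rpow_mul (by norm_num), ← Real.rpow_add (by norm_num)]
      congr 1
      push_cast
      ring
    rw [e]
    exact Real.rpow_lt_one_of_one_lt_of_neg (by norm_num) (by linarith)
  set K2 : ℝ := 3 * (C * Cτ) * K * 81 with hK2
  have hK20 : 0 ≤ K2 := by positivity
  have hev : ∀ᶠ L : ℕ in Filter.atTop, K2 * (((L + 1 : ℕ) : ℝ) ^ 4 * ρ ^ L) ≤ 1 := by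
    have h1 := tendsto_pow_const_mul_const_pow_of_abs_lt_one 4
      (show |ρ| < 1 by rw [abs_of_pos hρ0]; exact hρ1)
    have h2 := (h1.comp (Filter.tendsto_add_atTop_nat 1)).const_mul (K2 / ρ)
    rw [mul_zero] at h2
    have h3 := h2.eventually (eventually_le_nhds (zero_lt_one))
    filter_upwards [h3] with L hL
    simp only [Function.comp] at hL
    have e : K2 / ρ * (((L + 1 : ℕ) : ℝ) ^ 4 * ρ ^ (L + 1))
        = K2 * (((L + 1 : ℕ) : ℝ) ^ 4 * ρ ^ L) := by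
      rw [pow_succ ρ L]
      field_simp
    rw [← e]
    exact hL
  obtain ⟨L0, hL0⟩ := Filter.eventually_atTop.mp hev
  set n0 := 2 ^ ((3 * L0) * (3 * L0)) + 2 with hn0
  refine ⟨1 + ∑ m ∈ Finset.range n0, f m, ?_, ?_⟩
  · have : 0 ≤ ∑ m ∈ Finset.range n0, f m := Finset.sum_nonneg (fun m _ => hf0 m)
    linarith
  set A := 1 + ∑ m ∈ Finset.range n0, f m with hA
  have hA0 : 0 ≤ A := by
    have : 0 ≤ ∑ m ∈ Finset.range n0, f m := Finset.sum_nonneg (fun m _ => hf0 m)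
    linarith
  intro n
  induction n using Nat.strong_induction_on with
  | _ n ih =>
    intro hn1
    by_cases hlt : n < n0
    · have h1 : f n ≤ ∑ m ∈ Finset.range n0, f m :=
        Finset.single_le_sum (fun m _ => hf0 m) (Finset.mem_range.mpr hlt)
      have h2 : (1:ℝ) ≤ (n : ℝ) ^ a := Real.one_le_rpow (by exact_mod_cast hn1) ha.le
      nlinarith
    · rw [not_lt] at hlt
      have hn2 : 2 ≤ n := le_trans (Nat.le_add_left 2 _) hlt
      obtain ⟨hl1, hl2, hl3⟩ := level hn2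
      set L := Nat.sqrt (Nat.log 2 n) / 3 with hL
      have hLL : L0 ≤ L := by
        have h1 : (3 * L0) * (3 * L0) ≤ Nat.log 2 n := by
          apply (Nat.le_log_iff_pow_le (by norm_num) (by omega)).mpr
          exact le_trans (Nat.le_add_right _ 2) hlt
        have h2 : 3 * L0 ≤ Nat.sqrt (Nat.log 2 n) := Nat.le_sqrt.mpr h1
        omega
      have hexp := expansion f hf0 hf hn2 hl2
      have hw := weight_le (by positivity) hC1 hCτ1 hcount hdiv hn1 hl1
      have htail := tail_le (β := a / 12) (C := C) (a := a) (L := L) hC1 ha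
        (by linarith) hcount hn1
      rw [← hb, ← hc, ← hK] at htail
      rw [← hb] at hw
      have hsum : ∑ d ∈ P n \ S n L, f d ≤ A * ∑ d ∈ P n \ S n L, (d : ℝ) ^ a := by
        rw [Finset.mul_sum]
        apply Finset.sum_le_sum
        intro d hd
        have h1 := (mem_P.mp (Finset.mem_sdiff.mp hd).1).1
        exact ih d h1.2 h1.1
      have hfs : 0 ≤ ∑ d ∈ P n \ S n L, f d := Finset.sum_nonneg (fun d _ => hf0 d)
      have hl : (0:ℝ) ≤ (Nat.log 2 n : ℝ) := by positivity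
      have hlog : (1 + (Nat.log 2 n : ℝ)) ≤ 9 * ((L + 1 : ℕ) : ℝ) ^ 2 := by exact_mod_cast hl3
      have hna : (0:ℝ) ≤ (n : ℝ) ^ a := by positivity
      have hlog2 : (1 + (Nat.log 2 n : ℝ)) ^ 2 ≤ 81 * ((L + 1 : ℕ) : ℝ) ^ 4 := by
        calc (1 + (Nat.log 2 n : ℝ)) ^ 2 ≤ (9 * ((L + 1 : ℕ) : ℝ) ^ 2) ^ 2 :=
              pow_le_pow_left₀ (by positivity) hlog 2
          _ = _ := by ring
      have hfin := hL0 L hLL
      have h1 : 2 * f n ≤ (3 * (C * Cτ) * (1 + (Nat.log 2 n : ℝ)) * (b ^ L) ^ 2) *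
          (A * (K * (1 + (Nat.log 2 n : ℝ)) * (n : ℝ) ^ a * (b / c) ^ L)) := by
        refine le_trans hexp ?_
        apply mul_le_mul hw _ hfs (by positivity)
        refine le_trans hsum ?_
        exact mul_le_mul_of_nonneg_left htail hA0
      have h2 : (3 * (C * Cτ) * (1 + (Nat.log 2 n : ℝ)) * (b ^ L) ^ 2) *
          (A * (K * (1 + (Nat.log 2 n : ℝ)) * (n : ℝ) ^ a * (b / c) ^ L))
          = (A * (n : ℝ) ^ a) * ((3 * (C * Cτ) * K * ρ ^ L) * (1 + (Nat.log 2 n : ℝ)) ^ 2) := by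
        rw [hρ, mul_pow, ← pow_mul, ← pow_mul, mul_comm 2 L]
        ring
      have h3 : (3 * (C * Cτ) * K * ρ ^ L) * (1 + (Nat.log 2 n : ℝ)) ^ 2
          ≤ K2 * (((L + 1 : ℕ) : ℝ) ^ 4 * ρ ^ L) := by
        calc (3 * (C * Cτ) * K * ρ ^ L) * (1 + (Nat.log 2 n : ℝ)) ^ 2
            ≤ (3 * (C * Cτ) * K * ρ ^ L) * (81 * ((L + 1 : ℕ) : ℝ) ^ 4) :=
              mul_le_mul_of_nonneg_left hlog2 (by positivity)
          _ = _ := by rw [hK2]; ring
      have h4 : (A * (n : ℝ) ^ a) * ((3 * (C * Cτ) * K * ρ ^ L) * (1 + (Nat.log 2 n : ℝ)) ^ 2)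
          ≤ (A * (n : ℝ) ^ a) * 1 :=
        mul_le_mul_of_nonneg_left (h3.trans hfin) (by positivity)
      have h5 : 0 ≤ A * (n : ℝ) ^ a := by positivity
      rw [h2] at h1
      linarith

end Q236.TriMu
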